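import Mathlib
import Pool.Agent.Helper549.Tri.DataDef
import Pool.Agent.Helper549.Tri.SqDefs
set_option autoImplicit false
noncomputable section
open scoped BigOperators
open Pool.Agent.Helper549.Tri

namespace Q16.SQ

/-- plane -/
abbrev E2 := EuclideanSpace ℝ (Fin 2)

/-- f is a Laurent polynomial with algebraic coefficients in exp (i x) -/
def TA (f : ℝ → ℂ) : Prop :=
  ∃ (n : ℕ) (P : Polynomial (algebraicClosure ℚ ℂ)), ∀ x : ℝ,
    f x * Complex.exp (x * Complex.I) ^ n = Polynomial.aeval (Complex.exp (x * Complex.I)) P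

/-- JOB TA1. closure properties of TA. Constants: n = 0, P = C c. Sum: n1+n2 and P1 X^n2 + P2 X^n1. Product: P1 P2.
Sine: sin (m x + r pi) = (z^m w - z^(-m) w^(-1)) / (2i), w = exp (i r pi) is a root of unity hence algebraic; n = |m|.
Last: P evaluated at z0 = exp(i x0) is 0 and z0 is transcendental over the algebraic numbers
(IsAlgebraic.restrictScalars), so P = 0, so f x exp(ix)^n = 0. -/
def S_TA1 : Prop :=
  (∀ c : ℂ, IsAlgebraic ℚ c → TA (fun _ => c)) ∧
  (∀ f g : ℝ → ℂ, TA f → TA g → TA (fun x => f x + g x)) ∧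
  (∀ f g : ℝ → ℂ, TA f → TA g → TA (fun x => f x * g x)) ∧
  (∀ (m : ℤ) (r : ℚ), TA (fun x => ((Real.sin (m * x + r * Real.pi) : ℝ) : ℂ))) ∧
  (∀ f : ℝ → ℂ, TA f → ∀ x0 : ℝ, Transcendental ℚ (Complex.exp (x0 * Complex.I)) → f x0 = 0 → ∀ x, f x = 0)

/-- JOB ALG. cos (m x + r pi) = (z^m w + z^(-m) w^(-1)) / 2 with w a root of unity; then pass from the complex number to
the real number (isAlgebraic_algebraMap_iff or IsAlgebraic.of ... algebraMap injective). -/
def S_ALG : Prop :=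
  (∀ (m : ℤ) (r : ℚ) (x : ℝ), IsAlgebraic ℚ (Complex.exp (x * Complex.I)) →
    IsAlgebraic ℚ (Real.cos (m * x + r * Real.pi))) ∧
  (∀ x : ℝ, IsAlgebraic ℚ (Real.cos x) → IsAlgebraic ℚ (Complex.exp (x * Complex.I)))

/-- JOB IDENT. Put c = l 0 / sin (th 0), d = S 0 / sin (A 0): then l k = c sin (th k), S j = d sin (A j) (sinet, sineT; the
sines are positive since the angles are in (0,pi)); the area gives N c^2 prod sin th = d^2 prod sin A, the side relation
d sin (A j) = c sum. Multiply. Second: if A j = th j for all j then N c^2 = d^2. -/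
def S_IDENT : Prop :=
  ∀ {N : ℕ} {ℓ θ S A : Fin 3 → ℝ} {κ β : Fin 3 → Fin 3 → ℕ}, Data N ℓ θ S A κ β →
    (∀ j : Fin 3, (N : ℝ) * (Real.sin (θ 0) * Real.sin (θ 1) * Real.sin (θ 2)) * Real.sin (A j) ^ 2 =
      (Real.sin (A 0) * Real.sin (A 1) * Real.sin (A 2)) * (∑ k, (β j k : ℝ) * Real.sin (θ k)) ^ 2) ∧
    ((∀ j, A j = θ j) → ∀ j, S j = Real.sqrt N * ℓ j)

/-- JOB NONSIM. Assume S_TA1 and S_IDENT. The function F x = N prod sin (t k x) sin (a j x)^2 - prod sin (a i x) (sum)^2, where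
t k x = m k x + r k pi and a i x = sum over k of kappa i k * t k x (again of the form m' x + r' pi with integer m' and rational r'),
is in TA and vanishes at x0 (S_IDENT and Data.angles); hence it vanishes at x, where its value is
N times a nonzero number minus 0; N is positive since the area of the big triangle is positive. -/
def S_NONSIM : Prop :=
  ∀ {N : ℕ} {ℓ θ S A : Fin 3 → ℝ} {κ β : Fin 3 → Fin 3 → ℕ}, Data N ℓ θ S A κ β →
    ∀ (m : Fin 3 → ℤ) (r : Fin 3 → ℚ) (x0 : ℝ), (∀ k, θ k = m k * x0 + r k * Real.pi) →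
    Transcendental ℚ (Complex.exp (x0 * Complex.I)) → ∀ (x : ℝ),
    (∀ k, Real.sin (m k * x + r k * Real.pi) ≠ 0) → ∀ i j : Fin 3,
    Real.sin (∑ k, (κ i k : ℝ) * (m k * x + r k * Real.pi)) = 0 →
    Real.sin (∑ k, (κ j k : ℝ) * (m k * x + r k * Real.pi)) ≠ 0 → False

/-- JOB MATJ. Copy of Pool/Agent/Helper549/Tri/MatJ.lean with 19 replaced by a natural number N that is not a square
(sqrt N is irrational: irrational_sqrt_natCast_iff). -/
def S_MATJ : Prop :=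
  ∀ (N : ℕ), ¬ IsSquare N → ∀ (M : Fin 3 → Fin 3 → ℕ) (v : Fin 3 → ℝ), (∀ k, 0 < v k) →
    (∀ k, ∑ l, (M k l : ℝ) * v l = Real.sqrt N * v k) →
    (¬ ∀ k l, l ≠ k → ∃ l', l' ≠ k ∧ 0 < M l l') ∧
    ((∀ k l, k ≠ 2 → l ≠ k → ∃ l', l' ≠ k ∧ 0 < M l l') → ∀ i j, i ≠ 2 → j ≠ 2 → M i j = 0)

/-- JOB RIGHT. Assume S_MATJ and S_IDENT. From kappa and Data.angles and tsum one gets th 2 = pi/2 ( P = (2,2,0), Asum ), A j = th j,
so S j = sqrt N l j; S_MATJ with M = beta (hgood from Data.corner, since corners 0 and 1 have only the types 0 and 1) gives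
sqrt N l 0 = p l 2, sqrt N l 1 = q l 2 with p, q natural numbers, positive; so S 0 = p l 2, S 1 = q l 2, S 2 = sqrt N l 2. -/
def S_RIGHT : Prop :=
  ∀ {N : ℕ} {ℓ θ S A : Fin 3 → ℝ} {κ β : Fin 3 → Fin 3 → ℕ}, Data N ℓ θ S A κ β → ¬ IsSquare N →
    κ = ![![1, 0, 0], ![0, 1, 0], ![1, 1, 0]] →
    A 2 = Real.pi / 2 ∧ ∃ p q : ℕ, 0 < p ∧ 0 < q ∧ S 0 = p * ℓ 2 ∧ S 1 = q * ℓ 2 ∧ S 2 = Real.sqrt N * ℓ 2

/-- JOB SIMC. Assume S_MATJ and S_IDENT. Four similar cases. First: A j = th j, M = beta, every corner good: first part of S_MATJ.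
Others: kappa with Asum = tsum gives th 1 = 2 th 0 resp. th 2 = 2 th 0 + th 1 resp. th 2 = 2 th 0 + 2 th 1, so A j = th j and
S j = sqrt N l j. Data.char with X = (-1,1,1), resp. (-1,-1,-1), resp. (1,-1,1) gives
sqrt N (-l0+l1+l2) = M (-l0+l1+l2), resp. sqrt N (l0+l1+l2) = M (l0+l1+l2), resp. sqrt N (l0-l1+l2) = M (l0-l1+l2),
and the factor is positive (triangle inequality from the sine law), so sqrt N = M is an integer and N is a square. -/
def S_SIMC : Prop :=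
  ∀ {N : ℕ} {ℓ θ S A : Fin 3 → ℝ} {κ β : Fin 3 → Fin 3 → ℕ}, Data N ℓ θ S A κ β → ¬ IsSquare N →
    κ ≠ ![![1, 0, 0], ![0, 1, 0], ![0, 0, 1]] ∧ κ ≠ ![![1, 0, 0], ![2, 0, 0], ![0, 0, 1]] ∧
    κ ≠ ![![1, 0, 0], ![0, 1, 0], ![2, 1, 0]] ∧ κ ≠ ![![1, 0, 0], ![0, 1, 0], ![2, 2, 0]]

/-- two equal rows -/
def IsoK (κ : Fin 3 → Fin 3 → ℕ) : Prop := ∃ i j, i ≠ j ∧ κ i = κ j

/-- JOB ENUM. Finite enumeration (all entries are at most 3). Script a case split (omega/decide), see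
Pool/Agent/Helper549/Tri/Final0.lean core_111 ... for the pattern. -/
def S_ENUM : Prop :=
  ∀ κ : Fin 3 → Fin 3 → ℕ, (∀ j, ∃ k, 0 < κ j k) →
    ((∀ k, ∑ j, κ j k = (![1, 1, 1] : Fin 3 → ℕ) k) →
      ∃ π : Equiv.Perm (Fin 3), (fun j => κ (π j)) = ![![1, 0, 0], ![0, 1, 0], ![0, 0, 1]]) ∧
    ((∀ k, ∑ j, κ j k = (![2, 0, 1] : Fin 3 → ℕ) k) → IsoK κ) ∧
    ((∀ k, ∑ j, κ j k = (![0, 0, 3] : Fin 3 → ℕ) k) → IsoK κ) ∧
    ((∀ k, ∑ j, κ j k = (![3, 0, 1] : Fin 3 → ℕ) k) → IsoK κ ∨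
      ∃ π : Equiv.Perm (Fin 3), (fun j => κ (π j)) = ![![1, 0, 0], ![2, 0, 0], ![0, 0, 1]]) ∧
    ((∀ k, ∑ j, κ j k = (![2, 2, 0] : Fin 3 → ℕ) k) → IsoK κ ∨
      ∃ π : Equiv.Perm (Fin 3), (fun j => κ (π j)) = ![![1, 0, 0], ![0, 1, 0], ![1, 1, 0]]) ∧
    ((∀ k, ∑ j, κ j k = (![3, 2, 0] : Fin 3 → ℕ) k) → IsoK κ ∨
      ∃ π : Equiv.Perm (Fin 3), ((fun j => κ (π j)) = ![![1, 0, 0], ![0, 1, 0], ![2, 1, 0]] ∨
        (fun j => κ (π j)) = ![![2, 0, 0], ![1, 1, 0], ![0, 1, 0]] ∨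
        (fun j => κ (π j)) = ![![2, 0, 0], ![0, 2, 0], ![1, 0, 0]])) ∧
    ((∀ k, ∑ j, κ j k = (![3, 3, 0] : Fin 3 → ℕ) k) → IsoK κ ∨
      ∃ π : Equiv.Perm (Fin 3), ((fun j => κ (π j)) = ![![1, 0, 0], ![0, 1, 0], ![2, 2, 0]] ∨
        (fun j => κ (π j)) = ![![3, 0, 0], ![0, 2, 0], ![0, 1, 0]] ∨
        (fun j => κ (π j)) = ![![0, 3, 0], ![2, 0, 0], ![1, 0, 0]] ∨
        (fun j => κ (π j)) = ![![2, 1, 0], ![1, 1, 0], ![0, 1, 0]] ∨
        (fun j => κ (π j)) = ![![1, 2, 0], ![1, 1, 0], ![1, 0, 0]] ∨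
        (fun j => κ (π j)) = ![![2, 1, 0], ![0, 2, 0], ![1, 0, 0]] ∨
        (fun j => κ (π j)) = ![![1, 2, 0], ![2, 0, 0], ![0, 1, 0]] ∨
        (fun j => κ (π j)) = ![![2, 0, 0], ![1, 1, 0], ![0, 2, 0]]))

/-- JOB ISOM. Congruent triples of points of the plane, the first affinely independent: P 1 - P 0, P 2 - P 0 is a basis of the
plane; the linear map sending it to Q 1 - Q 0, Q 2 - Q 0 preserves the norm (inner products from distances by polarization),
so it is a linear isometry of a finite dimensional space, hence an equivalence; the image of a convex hull is the hull of the image. -/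
def S_ISOM : Prop :=
  ∀ P Q : Fin 3 → E2, AffineIndependent ℝ P → (∀ i j, dist (P i) (P j) = dist (Q i) (Q j)) →
    ∃ f : E2 ≃ᵢ E2, f '' TriSet P = TriSet Q

/-- JOB SPLIT. A cevian cuts a triangle into two. Interiors are disjoint: they lie on different sides of the line through
T 0 and M (the affine function (barycentric coordinate of T 1) * t - (barycentric coordinate of T 2) * (1 - t), or an inner product
with a normal vector of that line). -/
def S_SPLIT : Prop :=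
  ∀ (T : Fin 3 → E2), AffineIndependent ℝ T → ∀ t : ℝ, 0 < t → t < 1 →
    AffineIndependent ℝ ![T 0, T 1, AffineMap.lineMap (T 1) (T 2) t] ∧
    AffineIndependent ℝ ![T 0, T 2, AffineMap.lineMap (T 1) (T 2) t] ∧
    TriSet ![T 0, T 1, AffineMap.lineMap (T 1) (T 2) t] ∪ TriSet ![T 0, T 2, AffineMap.lineMap (T 1) (T 2) t] = TriSet T ∧
    Disjoint (interior (TriSet ![T 0, T 1, AffineMap.lineMap (T 1) (T 2) t]))
      (interior (TriSet ![T 0, T 2, AffineMap.lineMap (T 1) (T 2) t]))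

/-- JOB KSQ. The standard dissection of a triangle into k^2 triangles with sides 1/k times its sides. With u = (T 1 - T 0)/k,
v = (T 2 - T 0)/k: up tiles (i,j), i+j < k: T 0 + i u + j v, T 0 + (i+1) u + j v, T 0 + i u + (j+1) v; down tiles (i,j), i+j+1 < k:
T 0 + (i+1) u + (j+1) v, T 0 + i u + (j+1) v, T 0 + (i+1) u + j v. Index by Fin k x Fin k: (i,j) with i+j < k is an up tile, the others
are the down tiles (k-1-i, k-1-j); then transport to Fin (k^2). In coordinates (x,y): up tile = x>=i, y>=j, x+y<=i+j+1; down tile =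
x<=i+1, y<=j+1, x+y>=i+j+1. -/
def S_KSQ : Prop :=
  ∀ (T : Fin 3 → E2), AffineIndependent ℝ T → ∀ k : ℕ, 0 < k →
    ∃ P : Fin (k ^ 2) → Fin 3 → E2, (∀ i, AffineIndependent ℝ (P i)) ∧
      (∀ i, ∀ a b, dist (P i a) (P i b) = dist (T a) (T b) / k) ∧
      (⋃ i, TriSet (P i)) = TriSet T ∧
      (∀ i j, i ≠ j → Disjoint (interior (TriSet (P i))) (interior (TriSet (P j))))

/-- JOB ISO2. Assume S_ISOM, S_SPLIT. Median of an isosceles triangle (t = 1/2). -/
def S_ISO2 : Prop :=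
  ∀ (T : Fin 3 → E2), AffineIndependent ℝ T → dist (T 0) (T 1) = dist (T 0) (T 2) → CanCut T 2

/-- JOB RCUT. Assume S_ISOM, S_SPLIT, S_KSQ. Right angle at T 0, legs in ratio p : q. The foot M of the altitude from T 0 is
lineMap (T 1) (T 2) t with t = p^2/(p^2+q^2) (since dist (T 1) M = dist (T 0) (T 1)^2 / dist (T 1) (T 2)). The triangle ![T 0, T 1, M] is
similar to T with ratio dist (T 0) (T 1) / dist (T 1) (T 2), cut it into p^2 tiles; the other one into q^2 tiles; every tile is congruent to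
T divided by sqrt(p^2+q^2) (match the vertices by a permutation). The interior of the tiles of one part is inside the interior of that part. -/
def S_RCUT : Prop :=
  ∀ (T : Fin 3 → E2), AffineIndependent ℝ T → angle T 0 = Real.pi / 2 → ∀ p q : ℕ, 0 < p → 0 < q →
    (q : ℝ) * dist (T 0) (T 1) = p * dist (T 0) (T 2) → CanCut T (p ^ 2 + q ^ 2)

/-- the triangle T is covered by the theorem -/
def Gen (T : Fin 3 → E2) : Prop :=
  (∃ i, Transcendental ℚ (Real.cos (angle T i))) ∨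
    ((∃ i, ¬ ∃ q : ℚ, angle T i = q * Real.pi) ∧ (∀ i j, angle T i ≠ 2 * angle T j) ∧
      (∀ i, angle T i ≠ Real.pi / 3) ∧ (∀ i j, angle T i ≠ angle T j + Real.pi / 3) ∧
      (∀ i j k, i ≠ j → j ≠ k → i ≠ k → angle T i ≠ 2 * (angle T j - angle T k)))

/-- JOB CNT. If T is not covered then the three cosines are algebraic, so angle T 0 and angle T 1 (in [0,pi], where cos is
injective) lie in a countable set (Algebraic.countable). -/
def S_CNT : Prop :=
  Set.Countable {p : ℝ × ℝ | ∃ T : Fin 3 → E2, AffineIndependent ℝ T ∧ ¬ Gen T ∧ p = (angle T 0, angle T 1)}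

end Q16.SQ
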