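import Mathlib
import Pool.Agent.Helper549.Tri.DataDef
import Pool.Agent.Helper549.Tri.Defs
import Pool.Agent.Q16.SQ.Stm
set_option autoImplicit false
noncomputable section
open scoped BigOperators
open Pool.Agent.Helper549.Tri

namespace Q16.SQ

/-- six arithmetic families of integer sided triangles -/
def FamTriple (x y z : ℕ) : Prop :=
  ∃ a b c : ℕ, 0 < a ∧ 0 < b ∧ 0 < c ∧
    ((a ^ 2 + b * c = c ^ 2 ∧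
        ((x = a * (b + c) ∧ y = c ^ 2 ∧ z = b * c ∧ ¬ IsSquare (c * (b + c))) ∨
         (x = c * (b + c) ∧ y = b * (b + 2 * c) ∧ z = c ^ 2 ∧ ¬ IsSquare ((b + c) * (b + 2 * c))))) ∨
      (c ^ 2 = a ^ 2 + a * b + b ^ 2 ∧
        ((x = 3 * a * (a + b) ∧ y = (2 * a + b) * c ∧ z = c ^ 2 ∧ ¬ IsSquare (3 * (a + b) * (2 * a + b))) ∨
         (x = a + b ∧ y = c ∧ z = b ∧ ¬ IsSquare (a * (a + b))) ∨
         (x = (a + b) * c ∧ y = b * (2 * a + b) ∧ z = a * c ∧ ¬ IsSquare ((a + b) * (2 * a + b))) ∨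
         (x = a * (a + 2 * b) ∧ y = c ^ 2 ∧ z = b * (2 * a + b) ∧ ¬ IsSquare ((a + 2 * b) * (2 * a + b))))))

/-- sides proportional to a triple of the families -/
def Fam (S : Fin 3 → ℝ) : Prop :=
  ∃ (i j k : Fin 3), i ≠ j ∧ j ≠ k ∧ i ≠ k ∧ ∃ x y z : ℕ, FamTriple x y z ∧
    ∃ r : ℝ, 0 < r ∧ S i = r * x ∧ S j = r * y ∧ S k = r * z

/-- the six corner matrices -/
def K1 : Fin 3 → Fin 3 → ℕ := ![![2, 0, 0], ![1, 1, 0], ![0, 1, 0]]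
def K2 : Fin 3 → Fin 3 → ℕ := ![![2, 0, 0], ![0, 2, 0], ![1, 0, 0]]
def K3 : Fin 3 → Fin 3 → ℕ := ![![3, 0, 0], ![0, 2, 0], ![0, 1, 0]]
def K4 : Fin 3 → Fin 3 → ℕ := ![![2, 1, 0], ![1, 1, 0], ![0, 1, 0]]
def K5 : Fin 3 → Fin 3 → ℕ := ![![2, 1, 0], ![0, 2, 0], ![1, 0, 0]]
def K6 : Fin 3 → Fin 3 → ℕ := ![![2, 0, 0], ![1, 1, 0], ![0, 2, 0]]

/-- JOBS SH1 ... SH6 (trigonometry only; a = l 0, b = l 1, c = l 2, al = th 0, be = th 1).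
K1, K2: from Data.angles and Asum one gets 3 al + 2 be = pi, so th 2 = 2 al + be, al/2 = s with be = pi/2 - 3 s, th 2 = pi/2 + s,
a : b : c = sin 2s : cos 3s : cos s, a^2 = c (c - b). K1: angles of T are 2 al, al + be, be. K2: 2 al, 2 be, al.
K3 ... K6: 3 al + 3 be = pi, th 2 = 2 pi/3, c^2 = a^2 + a b + b^2 (law of cosines).
The side ratios of T follow from the sine law Data.sineT; the last equation is Data.area. (All six checked numerically.) -/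
def S_SH1 : Prop := ∀ {N : ℕ} {ℓ θ S A : Fin 3 → ℝ} {κ β : Fin 3 → Fin 3 → ℕ}, Data N ℓ θ S A κ β → κ = K1 →
  ℓ 0 ^ 2 + ℓ 1 * ℓ 2 = ℓ 2 ^ 2 ∧ ∃ r : ℝ, 0 < r ∧ S 0 = r * (ℓ 0 * (ℓ 1 + ℓ 2)) ∧ S 1 = r * ℓ 2 ^ 2 ∧
    S 2 = r * (ℓ 1 * ℓ 2) ∧ (N : ℝ) = r ^ 2 * (ℓ 2 * (ℓ 1 + ℓ 2))
def S_SH2 : Prop := ∀ {N : ℕ} {ℓ θ S A : Fin 3 → ℝ} {κ β : Fin 3 → Fin 3 → ℕ}, Data N ℓ θ S A κ β → κ = K2 →
  ℓ 0 ^ 2 + ℓ 1 * ℓ 2 = ℓ 2 ^ 2 ∧ ∃ r : ℝ, 0 < r ∧ S 0 = r * (ℓ 2 * (ℓ 1 + ℓ 2)) ∧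
    S 1 = r * (ℓ 1 * (ℓ 1 + 2 * ℓ 2)) ∧ S 2 = r * ℓ 2 ^ 2 ∧ (N : ℝ) = r ^ 2 * ((ℓ 1 + ℓ 2) * (ℓ 1 + 2 * ℓ 2))
def S_SH3 : Prop := ∀ {N : ℕ} {ℓ θ S A : Fin 3 → ℝ} {κ β : Fin 3 → Fin 3 → ℕ}, Data N ℓ θ S A κ β → κ = K3 →
  ℓ 2 ^ 2 = ℓ 0 ^ 2 + ℓ 0 * ℓ 1 + ℓ 1 ^ 2 ∧ ∃ r : ℝ, 0 < r ∧ S 0 = r * (3 * ℓ 0 * (ℓ 0 + ℓ 1)) ∧
    S 1 = r * ((2 * ℓ 0 + ℓ 1) * ℓ 2) ∧ S 2 = r * ℓ 2 ^ 2 ∧ (N : ℝ) = r ^ 2 * (3 * (ℓ 0 + ℓ 1) * (2 * ℓ 0 + ℓ 1))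
def S_SH4 : Prop := ∀ {N : ℕ} {ℓ θ S A : Fin 3 → ℝ} {κ β : Fin 3 → Fin 3 → ℕ}, Data N ℓ θ S A κ β → κ = K4 →
  ℓ 2 ^ 2 = ℓ 0 ^ 2 + ℓ 0 * ℓ 1 + ℓ 1 ^ 2 ∧ ∃ r : ℝ, 0 < r ∧ S 0 = r * (ℓ 0 + ℓ 1) ∧
    S 1 = r * ℓ 2 ∧ S 2 = r * ℓ 1 ∧ (N : ℝ) * ℓ 0 = r ^ 2 * (ℓ 0 + ℓ 1)
def S_SH5 : Prop := ∀ {N : ℕ} {ℓ θ S A : Fin 3 → ℝ} {κ β : Fin 3 → Fin 3 → ℕ}, Data N ℓ θ S A κ β → κ = K5 →
  ℓ 2 ^ 2 = ℓ 0 ^ 2 + ℓ 0 * ℓ 1 + ℓ 1 ^ 2 ∧ ∃ r : ℝ, 0 < r ∧ S 0 = r * ((ℓ 0 + ℓ 1) * ℓ 2) ∧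
    S 1 = r * (ℓ 1 * (2 * ℓ 0 + ℓ 1)) ∧ S 2 = r * (ℓ 0 * ℓ 2) ∧ (N : ℝ) = r ^ 2 * ((ℓ 0 + ℓ 1) * (2 * ℓ 0 + ℓ 1))
def S_SH6 : Prop := ∀ {N : ℕ} {ℓ θ S A : Fin 3 → ℝ} {κ β : Fin 3 → Fin 3 → ℕ}, Data N ℓ θ S A κ β → κ = K6 →
  ℓ 2 ^ 2 = ℓ 0 ^ 2 + ℓ 0 * ℓ 1 + ℓ 1 ^ 2 ∧ ∃ r : ℝ, 0 < r ∧ S 0 = r * (ℓ 0 * (ℓ 0 + 2 * ℓ 1)) ∧
    S 1 = r * ℓ 2 ^ 2 ∧ S 2 = r * (ℓ 1 * (2 * ℓ 0 + ℓ 1)) ∧
    (N : ℝ) = r ^ 2 * ((ℓ 0 + 2 * ℓ 1) * (2 * ℓ 0 + ℓ 1))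

/-- strong corner condition: if at least two tile angles meet at corner j, the tiles along the two sides there are different -/
def C2 (κ β : Fin 3 → Fin 3 → ℕ) : Prop :=
  ∀ j k k' : Fin 3, j ≠ k → j ≠ k' → k ≠ k' → 2 ≤ ∑ x, κ j x →
    ∃ x y x' y' : Fin 3, x ≠ y ∧ x' ≠ y' ∧ 0 < κ j x ∧ 0 < κ j x' ∧ (x = x' → 2 ≤ κ j x) ∧
      0 < β k y ∧ 0 < β k' y'

/-- JOB CORNER2. Tri.Corner.corner_side gives a tile i with vertex m at T j and a side along side k, and a tile i' with vertex m' at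
T j and a side along side k'. If i = i' then by Corner.h_near the interior of hull (t i) contains all points of the interior of T near
T j; as the sum of cnt is at least 2 there is another tile with a vertex at T j (two vertices of one tile are different), it has
interior points near T j, contradiction with disjointness. So the tiles differ and cnt counts both (x = tau i m, y = tau i l). -/
def S_CORNER2 : Prop :=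
  ∀ {N : ℕ} {T : Fin 3 → ℂ} {t : Fin N → Fin 3 → ℂ}, Dis N T t → ∀ (τ : Fin N → Equiv.Perm (Fin 3)),
    C2 (fun j k => cnt t τ (T j) k) (fun j k => bcnt T t τ j k)

/-- JOB F1 (assume S_SH1). x = r a, y = r b, z = r c. Data.char with X = (-1,1,1): S0 - S1 + S2 = M (-a+b+c), and the left side is
r a (b + c - a), so x = M =: m. N = z (y+z), x^2 = z (z-y): z^2 = (N+m^2)/2, y = z q with q rational positive.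
If z is irrational: r S1 = z^2, r S2 = y z are rational and r S j = m beta j 0 + y beta j 1 + z beta j 2 gives
beta j 1 = beta j 2 = 0 for j = 1 (and 2), against Data.corner at j = 0, k = 1 (kappa 0 = (2,0,0)). So x,y,z are rational, clear
denominators (factor D): naturals a',b',c' = D (x,y,z), S = (1/(r D^2)) * (a'(b'+c'), c'^2, b'c'), N D^2 = c'(b'+c'). First triple. -/
def S_F1 : Prop := ∀ {N : ℕ} {ℓ θ S A : Fin 3 → ℝ} {κ β : Fin 3 → Fin 3 → ℕ}, Data N ℓ θ S A κ β → ¬ IsSquare N →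
  κ = K1 → Fam S
/-- JOB F2 (assume S_SH2). x = r a, y = r b, z = r c; r S = (z(y+z), y(y+2z), z^2), N = (y+z)(y+2z), x^2 = z(z-y).
char with X = (-1,-1,-1): y(y+3z) = m1 (x+y+z) (m1 = -M); X = (-1,1,1): y(y+3z) = m2 (-x+y+z). So x = k (y+z) with k rational,
p = y+z satisfies (1-k) p = m1 (use p z = N - p^2, 2 z^2 = (k^2-1) p^2 + N, y(y+3z) = p^2 + p z - 2 z^2), p, z, y, x rational. -/
def S_F2 : Prop := ∀ {N : ℕ} {ℓ θ S A : Fin 3 → ℝ} {κ β : Fin 3 → Fin 3 → ℕ}, Data N ℓ θ S A κ β → ¬ IsSquare N →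
  κ = K2 → Fam S
/-- JOB F3 (assume S_SH3). x = r a, y = r b, z = r c; char X = (1,-1,1): S0+S1-S2 = M (a-b+c), left side = r (a-b+c)(a+2b+c), so
x+2y+z = M; X = (-1,1,1): -S0+S1+S2 = M' (-a+b+c), left side = r (-a+b+c)(a+2b-c), so x+2y-z = M'. So z, v = x+2y rational,
N = 3(x+y)(2x+y) and z^2 = x^2+xy+y^2 give y = (v^2+z^2-N/3)/(2v), all rational. -/
def S_F3 : Prop := ∀ {N : ℕ} {ℓ θ S A : Fin 3 → ℝ} {κ β : Fin 3 → Fin 3 → ℕ}, Data N ℓ θ S A κ β → ¬ IsSquare N →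
  κ = K3 → Fam S
/-- JOB F4 (assume S_SH4; extra hypothesis C2). char X = (1,-1,1): -(S0+S1+S2) = M (a-b+c): r(a+2b+c) = m (a-b+c), m = -M;
X = (-1,1,1): S0-S1+S2 = M' (-a+b+c): r(a+2b-c) = m' (-a+b+c). With c^2 = a^2+ab+b^2 these give (m+m') b = (m-m') c and
r = (m-m') a / (2 b). If a/b is irrational: S2 = r b = ((m-m')/2) a and S1 = r c = rho ((m-m')/2) a with rho = c/b rational, so
beta 2 1 = beta 2 2 = 0 = beta 1 1 = beta 1 2; C2 at j = 0, k = 1, k' = 2 (kappa 0 = (2,1,0)) forces x = x' = 1, 2 <= 1. So a/b, c/b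
and r = S2/b are rational; N a^2 = r^2 a (a+b). -/
def S_F4 : Prop := ∀ {N : ℕ} {ℓ θ S A : Fin 3 → ℝ} {κ β : Fin 3 → Fin 3 → ℕ}, Data N ℓ θ S A κ β → C2 κ β →
  ¬ IsSquare N → κ = K4 → Fam S
/-- JOB F5 (assume S_SH5). x = r a, y = r b, z = r c; char X = (1,-1,1): -S0+S1+S2 = M(a-b+c): y(2x+y-z) = M (x-y+z);
X = (-1,1,1): S0+S1-S2 = M'(-a+b+c): y(2x+y+z) = M' (-x+y+z). With z^2 = x^2+xy+y^2: y(2x+y-z) = (z-x)(x-y+z) and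
y(2x+y+z) = (z+x)(-x+y+z), so M = z-x, M' = z+x; N = (x+y)(2x+y) = x^2+z^2+2xy gives y rational. -/
def S_F5 : Prop := ∀ {N : ℕ} {ℓ θ S A : Fin 3 → ℝ} {κ β : Fin 3 → Fin 3 → ℕ}, Data N ℓ θ S A κ β → ¬ IsSquare N →
  κ = K5 → Fam S
/-- JOB F6 (assume S_SH6). x = r a, y = r b, z = r c; r S = (x(x+2y), z^2, y(2x+y)); char X = (1,-1,1): S0-S1+S2 = M (a-b+c), i.e.
3xy = M (x-y+z); X = (-1,1,1): 3xy = M' (-x+y+z). As (x-y+z)(-x+y+z) = 3xy: M = -x+y+z, M' = x-y+z, so z and d = x-y are rational,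
3xy = z^2-d^2. If x is irrational: comparing coefficients of x in r S j = x beta j 0 + y beta j 1 + z beta j 2 (y = x-d,
x^2 = d x + e): beta 0 0 + beta 0 1 = d, beta 2 0 + beta 2 1 = -d, so d = 0, x = y, l 0 = l 1, th 0 = th 1 = pi/6, th 2 = 2 pi/3,
against Data.irr. So x, y, z rational. -/
def S_F6 : Prop := ∀ {N : ℕ} {ℓ θ S A : Fin 3 → ℝ} {κ β : Fin 3 → Fin 3 → ℕ}, Data N ℓ θ S A κ β → ¬ IsSquare N →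
  κ = K6 → Fam S

end Q16.SQ
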