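import Mathlib
import Pool.Agent.Q16.SQ.Stm
import Pool.Agent.Q16.SQ.Stm2
import Pool.Agent.Helper549.Tri.Defs
set_option autoImplicit false
noncomputable section
open scoped BigOperators
open Pool.Agent.Helper549.Tri

namespace Q16.SQ

/-- the root of unity exp (2 pi i k / M) -/
def rt (M : ℕ) (k : ℤ) : ℂ := Complex.exp (2 * Real.pi * Complex.I * k / M)

/-- additive injective map of the complex plane, real on the real line, multiplying by the j-th power of roots of unity of order M -/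
def Semi (M : ℕ) (j : ℤ) (Φ : ℂ → ℂ) : Prop :=
  (∀ z w, Φ (z + w) = Φ z + Φ w) ∧ Function.Injective Φ ∧
  (∀ (k : ℤ) (z : ℂ), Φ (rt M k * z) = rt M (j * k) * Φ z) ∧ (∀ x : ℝ, (Φ x).im = 0) ∧ Φ 1 = 1

/-- JOB SEMI. zeta = rt M 1, L = Q(zeta), K = the subfield of the reals x with (x : C) in L. The automorphism s of L with s zeta = zeta^j
commutes with complex conjugation (both on powers of zeta), so it restricts to an automorphism s of K (ring equiv; inverse from j^(-1) mod M).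
Take a K-basis of the reals; f = b.repr.symm o (Finsupp.mapRange s) o b.repr is an additive bijection of the reals with
f (k x) = s k * f x for k in K; divide by f 1. With I^j = eps I (eps = 1 or -1, j odd): s (cos (2 pi k/M)) = cos (2 pi j k/M) and
s (sin (2 pi k/M)) = eps sin (2 pi j k/M). Put Phi (x + i y) = f x + i eps f y. -/
def S_SEMI : Prop := ∀ (M : ℕ) (j : ℤ), 0 < M → 4 ∣ M → IsCoprime j (M : ℤ) → ∃ Φ : ℂ → ℂ, Semi M j Φ

/-- JOB LINEH. Fix a line (direction u, level s), parametrized by zl u s x (Tri.Line). side_count (see the proof of Tri.Line.line_sum)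
says that for all but finitely many x the signed number of tile sides on the line containing zl u s x equals that of T. So the step
functions (sum of +-1 on the intervals between the parameters of the end points) agree outside a finite set; comparing the jumps at every
point (one-sided limits) the signed sums of point masses at the end points agree, hence the sums of h (end) - h (start) for every h. -/
def S_LINEH : Prop :=
  ∀ {N : ℕ} {T : Fin 3 → ℂ} {t : Fin N → Fin 3 → ℂ}, Dis N T t → ∀ (u : ℂ) (s : ℝ), ‖u‖ = 1 → ∀ h : ℂ → ℝ,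
  open Classical in
  (∑ i, ∑ k : Fin 3, if (dir (t i) k = u ∧ lev (t i) k = s) ∨ (dir (t i) k = -u ∧ lev (t i) k = -s) then
    h (t i (k + 2)) - h (t i (k + 1)) else 0) =
  ∑ k : Fin 3, if (dir T k = u ∧ lev T k = s) ∨ (dir T k = -u ∧ lev T k = -s) then
    h (T (k + 2)) - h (T (k + 1)) else 0

/-- JOB LINESUM. Assume S_LINEH. Sum over the finitely many lines (pairs (u,s) up to sign) that carry a side. -/
def S_LINESUM : Prop :=
  ∀ {N : ℕ} {T : Fin 3 → ℂ} {t : Fin N → Fin 3 → ℂ}, Dis N T t →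
  ∀ H : ℂ → ℝ → ℂ → ℝ, (∀ u s z, H (-u) (-s) z = H u s z) →
  (∑ i, ∑ k : Fin 3, (H (dir (t i) k) (lev (t i) k) (t i (k + 2)) - H (dir (t i) k) (lev (t i) k) (t i (k + 1)))) =
  ∑ k : Fin 3, (H (dir T k) (lev T k) (T (k + 2)) - H (dir T k) (lev T k) (T (k + 1)))

open Classical in
/-- signed crossing of the directed segment p q with the ray from w to the right (the line through p in direction d crosses the height of w
to the right of w) -/
def Cx (p d q w : ℂ) : ℝ :=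
  if d.im ≠ 0 ∧ w.re < p.re + (w.im - p.im) * d.re / d.im then
    (if w.im < q.im then (1 : ℝ) else 0) - (if w.im < p.im then (1 : ℝ) else 0) else 0

/-- w is on no side line of v and not at the height of a vertex -/
def Gw (v : Fin 3 → ℂ) (w : ℂ) : Prop := ∀ k, (v k).im ≠ w.im ∧ lam v k w ≠ 0

open Classical in
/-- JOB WIND. Winding number of a counterclockwise triangle (mem_int, mem_hull in Tri.Basic: interior = all lam positive). Cases by the
heights of the vertices relative to w. -/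
def S_WIND : Prop := ∀ (v : Fin 3 → ℂ) (w : ℂ), 0 < dd v → Gw v w →
  ∑ k : Fin 3, Cx (v (k + 1)) (v (k + 2) - v (k + 1)) (v (k + 2)) w = if w ∈ interior (hull v) then (1 : ℝ) else 0

open Classical in
/-- JOB TOPD. The set of w with all Gw is open and dense; a triangle is the closure of its interior. -/
def S_TOPD : Prop := ∀ (N : ℕ) (T : Fin 3 → ℂ) (t : Fin N → Fin 3 → ℂ), 0 < dd T → (∀ i, 0 < dd (t i)) →
  (∀ w : ℂ, Gw T w → (∀ i, Gw (t i) w) →
    (∑ i, if w ∈ interior (hull (t i)) then (1 : ℝ) else 0) = if w ∈ interior (hull T) then (1 : ℝ) else 0) →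
  Dis N T t

/-- normalized dissection: angles th k = pi a k / n, lengths sin (th k), directions roots of unity of order 4 n -/
def NDis (N : ℕ) (T : Fin 3 → ℂ) (t : Fin N → Fin 3 → ℂ) (τ : Fin N → Equiv.Perm (Fin 3)) (n : ℕ) (a : Fin 3 → ℕ) : Prop :=
  Dis N T t ∧ 0 < n ∧ (∀ k, 0 < a k) ∧ a 0 + a 1 + a 2 = n ∧
  (∀ i m, len (t i) m = Real.sin (Real.pi * a (τ i m) / n)) ∧
  (∀ i m, ang (t i) m = Real.pi * a (τ i m) / n) ∧
  (∀ i k, ∃ q : ℤ, dir (t i) k = rt (4 * n) q) ∧ (∀ k, ∃ q : ℤ, dir T k = rt (4 * n) q)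

/-- JOB NORM. Multiply everything by c = conj (dir T 0) / rho, where l k = rho sin (th k) (sine law). Directions: Tri.RealChar.dir_coset (its
proof does not need irrationality) expresses dir (t i) l as dir T j times a sign times exp (i sum x_k th_k); use it for j = 0 and for j = k. -/
def S_NORM : Prop := ∀ {N : ℕ} {T : Fin 3 → ℂ} {t : Fin N → Fin 3 → ℂ}, Dis N T t → 0 < N →
  ∀ (τ : Fin N → Equiv.Perm (Fin 3)) (ℓ θ : Fin 3 → ℝ), (∀ i m, len (t i) m = ℓ (τ i m)) →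
  (∀ i m, ang (t i) m = θ (τ i m)) → ∀ (n : ℕ) (a : Fin 3 → ℕ), 0 < n → (∀ k, 0 < a k) → a 0 + a 1 + a 2 = n →
  (∀ k, θ k = Real.pi * a k / n) →
  ∃ (T' : Fin 3 → ℂ) (t' : Fin N → Fin 3 → ℂ), NDis N T' t' τ n a ∧ ∀ j k, cnt t' τ (T' j) k = cnt t τ (T j) k

/-- fractional part of j a / n -/
def vf (n : ℕ) (j : ℤ) (x : ℕ) : ℝ := Int.fract ((j : ℝ) * x / n)

/-- JOB IMG. j is odd. Phi maps the side vector sin(th_k) * d (d root of unity) to Phi (sin th_k) * d^j, and Phi (sin th_k) = eps sin (j th_k) with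
I^j = eps I (write sin as (zeta^q - zeta^(-q))/(2i)). With v_k = vf n j (a k), f_k = floor: sin (j th_k) = (-1)^(f_k) sin (pi v_k), f_0+f_1+f_2 = j - 1 is even, so
(v'(k+2) - v' k)/(v'(k+1) - v' k) = (sin (pi v_(k+1)) / sin (pi v_(k+2))) exp (i pi v_k): counterclockwise with angles pi v_k. -/
def S_IMG : Prop := ∀ {N : ℕ} {T : Fin 3 → ℂ} {t : Fin N → Fin 3 → ℂ} {τ : Fin N → Equiv.Perm (Fin 3)} {n : ℕ} {a : Fin 3 → ℕ},
  NDis N T t τ n a → ∀ (j : ℤ) (Φ : ℂ → ℂ), IsCoprime j ((4 * n : ℕ) : ℤ) → Semi (4 * n) j Φ →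
  vf n j (a 0) + vf n j (a 1) + vf n j (a 2) = 1 →
  (∀ i, 0 < dd (fun m => Φ (t i m))) ∧ (∀ i m, ang (fun m => Φ (t i m)) m = Real.pi * vf n j (a (τ i m)))

/-- JOB DDT. Assume S_LINESUM, S_IMG. Shoelace: dd v = sum of cr (v (k+1)) (v (k+2)). For a side on the line (u,s) (u a root of unity) the images lie
on the line b + R u' with u' = Phi u, b = Phi (i s u), and cr (Phi p) (Phi q) = (y - x) cr b u' for Phi p = b + x u', Phi q = b + y u'. So with
H u s z = (coordinate of Phi z - b along u') * cr b u' (even under (u,s) -> (-u,-s)) S_LINESUM gives dd T' = sum of dd t'_i, positive. -/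
def S_DDT : Prop := ∀ {N : ℕ} {T : Fin 3 → ℂ} {t : Fin N → Fin 3 → ℂ} {τ : Fin N → Equiv.Perm (Fin 3)} {n : ℕ} {a : Fin 3 → ℕ},
  NDis N T t τ n a → 0 < N → ∀ (j : ℤ) (Φ : ℂ → ℂ), IsCoprime j ((4 * n : ℕ) : ℤ) → Semi (4 * n) j Φ →
  vf n j (a 0) + vf n j (a 1) + vf n j (a 2) = 1 → 0 < dd (fun m => Φ (T m))

open Classical in
/-- JOB SUMW. Assume S_LINESUM, S_WIND, S_IMG, S_DDT. H u s z = (1 if the line b + R u' (u' = Phi u, b = Phi (i s u)) has u'.im nonzero and crosses the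
height of w to the right of w, times the indicator of w.im < (Phi z).im); it is even; the sum of its differences over the three sides of a
triangle is the sum of Cx over the image triangle (the base point and the direction may be changed along the line). -/
def S_SUMW : Prop := ∀ {N : ℕ} {T : Fin 3 → ℂ} {t : Fin N → Fin 3 → ℂ} {τ : Fin N → Equiv.Perm (Fin 3)} {n : ℕ} {a : Fin 3 → ℕ},
  NDis N T t τ n a → 0 < N → ∀ (j : ℤ) (Φ : ℂ → ℂ), IsCoprime j ((4 * n : ℕ) : ℤ) → Semi (4 * n) j Φ →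
  vf n j (a 0) + vf n j (a 1) + vf n j (a 2) = 1 →
  ∀ w : ℂ, Gw (fun m => Φ (T m)) w → (∀ i, Gw (fun m => Φ (t i m)) w) →
    (∑ i, if w ∈ interior (hull (fun m => Φ (t i m))) then (1 : ℝ) else 0) =
      if w ∈ interior (hull (fun m => Φ (T m))) then (1 : ℝ) else 0

/-- JOB CONJ. Assume S_NORM, S_SEMI, S_IMG, S_DDT, S_SUMW, S_TOPD. The images form a dissection (S_TOPD); apply Tri.Vertex.corner_angles to it with the
angles pi vf; cnt is the same because Phi is injective; sum over the corners (Tri.Angles.ang_sum). -/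
def S_CONJ : Prop := ∀ {N : ℕ} {T : Fin 3 → ℂ} {t : Fin N → Fin 3 → ℂ}, Dis N T t → 0 < N →
  ∀ (τ : Fin N → Equiv.Perm (Fin 3)) (ℓ θ : Fin 3 → ℝ), (∀ i m, len (t i) m = ℓ (τ i m)) →
  (∀ i m, ang (t i) m = θ (τ i m)) → ∀ (n : ℕ) (a : Fin 3 → ℕ), 0 < n → (∀ k, 0 < a k) → a 0 + a 1 + a 2 = n →
  (∀ k, θ k = Real.pi * a k / n) →
  ∀ j : ℤ, IsCoprime j ((4 * n : ℕ) : ℤ) → vf n j (a 0) + vf n j (a 1) + vf n j (a 2) = 1 →
  ∑ k, ((∑ i, cnt t τ (T i) k : ℕ) : ℝ) * vf n j (a k) = 1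

/-- JOB NTA. x / n in lowest terms b / m. For every r coprime to m there is j coprime to 4 n with j = r mod m (ZMod.unitsMap_surjective). If m = 0 mod 4
take r = m/2 - 1, if m = 2 mod 4 take r = m/2 - 2, if m is odd take r = (m-1)/2. -/
def S_NTA : Prop := ∀ (n x p : ℕ), 0 < n → 0 < x → x < n → 3 ≤ p →
  (∀ j : ℤ, IsCoprime j ((4 * n : ℕ) : ℤ) → vf n j x < 1 / p ∨ 1 - 1 / (p : ℝ) < vf n j x) →
  (p = 3 ∧ (4 * x = n ∨ 4 * x = 3 * n)) ∨ (p ≤ 5 ∧ (6 * x = n ∨ 6 * x = 5 * n)) ∨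
  (p = 3 ∧ (10 * x = n ∨ 10 * x = 3 * n ∨ 10 * x = 7 * n ∨ 10 * x = 9 * n))

/-- outcome of the number theory -/
def NTout (n : ℕ) (a P : Fin 3 → ℕ) : Prop :=
  (∀ k, P k = 1) ∨
  (∃ d : ℕ, (d = 3 ∨ d = 4 ∨ d = 6) ∧ ∀ k, 0 < P k → ∃ m : ℕ, d * a k = m * n) ∨
  (∃ i j k : Fin 3, i ≠ j ∧ j ≠ k ∧ i ≠ k ∧ P i = 2 ∧ P j = 2 ∧ P k = 0 ∧ 2 * a k = n) ∨
  (∃ i j k : Fin 3, i ≠ j ∧ j ≠ k ∧ i ≠ k ∧ P i = 2 ∧ P j = 1 ∧ P k = 0) ∨
  (∃ i j k : Fin 3, i ≠ j ∧ j ≠ k ∧ i ≠ k ∧ P i = 3 ∧ P j = 1 ∧ P k = 0 ∧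
    ((10 * a i = n ∧ 10 * a j = 7 * n ∧ 10 * a k = 2 * n) ∨ (10 * a i = 3 * n ∧ 10 * a j = n ∧ 10 * a k = 6 * n)))

/-- JOB NT. Assume S_NTA. Put v_k(j) = vf n j (a k) when the sum is 1. For every j coprime to 4 n either j or -j has sum 1 (vf n (-j) x = 1 - vf n j x), v_k(1) = a k / n.
Since sum (P k - 1) v_k = 0 and P is not (1,1,1), some P k = 0. Only one P i = p nonzero: v_i = 1/p for all j, so (S_NTA if p is at least 3; p = sum P) p is 3,4,5,6 and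
a i / n = 1/p, 5 excluded: d = p. Exactly one P k = 0, P i = p, P j = q with p >= q: v_i < 1/p always. p >= 3: S_NTA for a i: a i / n = 1/4 (p = 3): q v_j = 1/4
always, a j / n = 1/(4q), so q = 1 (otherwise S_NTA with 4 q at least 8 is impossible), d = 4. a i / n = 1/6, p = 3,4,5: q v_j = (6-p)/6 always, a j / n = (6-p)/(6 q), so
q = 1 or ... : 1/(2q) with q <= 3, 1/(3q) with q <= 2, 1/(6q) with q = 1 (S_NTA, units all +-1); 1/4 (p = 3, q = 2) is excluded by a j coprime to 4 n with j = 7 mod 12 (a = (1/6,1/4,7/12));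
all the others have a i, a j multiples of n/6: d = 6. a i / n = 1/10 or 3/10, p = 3: q v_j takes the values 7/10 and 1/10 (both); q = 1: last case of NTout; q >= 2: v_j(j) = 1/(10q) is
attained, so a j / n has denominator 10 q and all units r mod 10 q have r/(10q) = +-1/(10q) or +-7/(10q) mod 1, impossible by r = m/2 - 1 or m/2 - 2 (m = 10 q).
p = 2: (2,2,0): v_k = 1/2, (2,1,0). -/
def S_NT : Prop := ∀ (n : ℕ) (a P : Fin 3 → ℕ), 0 < n → (∀ k, 0 < a k) → a 0 + a 1 + a 2 = n → 3 ≤ P 0 + P 1 + P 2 →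
  (∀ j : ℤ, IsCoprime j ((4 * n : ℕ) : ℤ) → vf n j (a 0) + vf n j (a 1) + vf n j (a 2) = 1 →
    (P 0 : ℝ) * vf n j (a 0) + P 1 * vf n j (a 1) + P 2 * vf n j (a 2) = 1) → NTout n a P

/-- the numerical data without the irrationality -/
structure Data0 (N : ℕ) (ℓ θ S A : Fin 3 → ℝ) (κ β : Fin 3 → Fin 3 → ℕ) : Prop where
  lpos : ∀ k, 0 < ℓ k
  Spos : ∀ k, 0 < S k
  tpos : ∀ k, 0 < θ k
  tsum : θ 0 + θ 1 + θ 2 = Real.pi
  Apos : ∀ k, 0 < A k
  Asum : A 0 + A 1 + A 2 = Real.pi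
  sinet : ∀ j k, ℓ j * Real.sin (θ k) = ℓ k * Real.sin (θ j)
  sineT : ∀ j k, S j * Real.sin (A k) = S k * Real.sin (A j)
  area : (N : ℝ) * (ℓ 0 * ℓ 1 * Real.sin (θ 2)) = S 0 * S 1 * Real.sin (A 2)
  angles : ∀ j, A j = ∑ k, (κ j k : ℝ) * θ k
  kpos : ∀ j, ∃ k, 0 < κ j k
  side : ∀ j, S j = ∑ k, (β j k : ℝ) * ℓ k
  corner : ∀ j k, j ≠ k → ∃ x y, x ≠ y ∧ 0 < κ j x ∧ 0 < β k y

/-- JOB DATA0. Same proof as Tri.DataDis.data_of_dis without the fields irr, count, char. -/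
def S_DATA0 : Prop := ∀ {N : ℕ}, 2 ≤ N → ∀ {T : Fin 3 → ℂ} {t : Fin N → Fin 3 → ℂ}, Dis N T t →
  ∀ (τ : Fin N → Equiv.Perm (Fin 3)) (ℓ θ : Fin 3 → ℝ), (∀ i m, len (t i) m = ℓ (τ i m)) →
  (∀ i m, ang (t i) m = θ (τ i m)) →
  Data0 N ℓ θ (len T) (ang T) (fun j k => cnt t τ (T j) k) (fun j k => bcnt T t τ j k)

/-- JOB PERM0. As Tri.PermX (perm_types, perm_corners) for Data0. -/
def S_PERM0 : Prop := ∀ {N : ℕ} {ℓ θ S A : Fin 3 → ℝ} {κ β : Fin 3 → Fin 3 → ℕ}, Data0 N ℓ θ S A κ β →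
  ∀ (π σ : Equiv.Perm (Fin 3)), Data0 N (fun k => ℓ (σ k)) (fun k => θ (σ k)) (fun j => S (π j)) (fun j => A (π j))
    (fun j k => κ (π j) (σ k)) (fun j k => β (π j) (σ k))

/-- JOB RCA. Assume S_MATJ. kappa the identity matrix: A = th, S j = sqrt N l j (area and sine laws), M = beta, all corners good: first part of S_MATJ.
Second: kappa = (e0, e1, e0 + e1) rows, th 2 = pi/2: as JOB RIGHT (Pool.Agent.Q90.SQ_RIGHT): S 0 = p l 2, S 1 = q l 2, S 2 = sqrt N l 2.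
Third: kappa = (e0, e1, 2 e0) rows with th 2 = 2 th 0 and (th 0, th 1) = (pi/10, 7pi/10) or (3pi/10, pi/10): A = th, corners 0 and 1 good, S_MATJ (second part) gives
l 0 / l 1 rational, but sin (pi/10) / sin (3pi/10) = (3 - sqrt 5)/2 is irrational (sin (7pi/10) = sin (3pi/10)). -/
def S_RCA : Prop := ∀ {N : ℕ} {ℓ θ S A : Fin 3 → ℝ} {κ β : Fin 3 → Fin 3 → ℕ}, Data0 N ℓ θ S A κ β → ¬ IsSquare N →
  κ ≠ ![![1, 0, 0], ![0, 1, 0], ![0, 0, 1]] ∧
  (κ = ![![1, 0, 0], ![0, 1, 0], ![1, 1, 0]] → θ 2 = Real.pi / 2 →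
    A 2 = Real.pi / 2 ∧ ∃ p q : ℕ, 0 < p ∧ 0 < q ∧ S 0 = p * ℓ 2 ∧ S 1 = q * ℓ 2 ∧ S 2 = Real.sqrt N * ℓ 2) ∧
  (κ = ![![1, 0, 0], ![0, 1, 0], ![2, 0, 0]] → θ 2 = 2 * θ 0 →
    ((θ 0 = Real.pi / 10 ∧ θ 1 = 7 * Real.pi / 10) ∨ (θ 0 = 3 * Real.pi / 10 ∧ θ 1 = Real.pi / 10)) → False)

/-- JOB ENUM0. Finite enumeration. -/
def S_ENUM0 : Prop := ∀ κ : Fin 3 → Fin 3 → ℕ, (∀ j, ∃ k, 0 < κ j k) →
  ((∀ k, ∑ j, κ j k = (![1, 1, 1] : Fin 3 → ℕ) k) →
      ∃ π : Equiv.Perm (Fin 3), (fun j => κ (π j)) = ![![1, 0, 0], ![0, 1, 0], ![0, 0, 1]]) ∧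
  ((∀ k, ∑ j, κ j k = (![2, 2, 0] : Fin 3 → ℕ) k) → IsoK κ ∨
      ∃ π : Equiv.Perm (Fin 3), (fun j => κ (π j)) = ![![1, 0, 0], ![0, 1, 0], ![1, 1, 0]]) ∧
  ((∀ k, ∑ j, κ j k = (![2, 1, 0] : Fin 3 → ℕ) k) → IsoK κ) ∧
  ((∀ k, ∑ j, κ j k = (![3, 1, 0] : Fin 3 → ℕ) k) → IsoK κ ∨
      ∃ π : Equiv.Perm (Fin 3), (fun j => κ (π j)) = ![![1, 0, 0], ![0, 1, 0], ![2, 0, 0]])

/-- JOB CUT3. Assume S_ISOM, S_SPLIT (S_ISOM needs only equal distances). Triangle with angles pi/6 at T i, pi/3 at T j, pi/2 at the third vertex T k: let D on the side T i T k be the foot of the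
bisector from T j (T k D = s/3 * ... ), and E on T i T j with T j E = T j T k: the triangles (T k, T j, D), (E, T j, D), (E, T i, D) are congruent (T i T j = 2 T j T k,
T k D = T j T k / sqrt 3 = D E, T i D = T j D). Cut by T j D, then the part T i T j D by D E (midpoint of T i T j). -/
def S_CUT3 : Prop := ∀ (T : Fin 3 → E2), AffineIndependent ℝ T → ∀ i j : Fin 3, angle T i = Real.pi / 6 → angle T j = Real.pi / 3 →
  CanCut T 3

/-- JOB RATN. Common denominator. -/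
def S_RATN : Prop := ∀ θ : Fin 3 → ℝ, (∀ k, 0 < θ k) → θ 0 + θ 1 + θ 2 = Real.pi → (∀ k, ∃ q : ℚ, θ k = q * Real.pi) →
  ∃ (n : ℕ) (a : Fin 3 → ℕ), 0 < n ∧ (∀ k, 0 < a k) ∧ a 0 + a 1 + a 2 = n ∧ ∀ k, θ k = Real.pi * a k / n

/-- JOB D6. d = 3: 1+1+1; d = 4: 1+1+2 (not scalene); d = 6: 1+2+3 is the only sum of three different positive integers. -/
def S_D6 : Prop := ∀ A : Fin 3 → ℝ, (∀ k, 0 < A k) → A 0 + A 1 + A 2 = Real.pi → (∀ i j, i ≠ j → A i ≠ A j) →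
  ∀ d : ℕ, (d = 3 ∨ d = 4 ∨ d = 6) → (∀ j, ∃ m : ℕ, A j = m * Real.pi / d) → ∃ i j, A i = Real.pi / 6 ∧ A j = Real.pi / 3

end Q16.SQ
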