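import Mathlib
import Pool.Agent.Q16.SQ.Stm
import Pool.Agent.Q16.SQ.Stm2
set_option autoImplicit false
noncomputable section
open scoped BigOperators
open Pool.Agent.Helper549.Tri

namespace Q16.SQ

/-- closed triangle A B C -/
def TriOf (A B C : E2) : Set E2 := TriSet ![A, B, C]

/-- x, y, z is a permutation of a, b, c -/
def Sd (a b c x y z : ℝ) : Prop :=
  (x = a ∧ y = b ∧ z = c) ∨ (x = a ∧ y = c ∧ z = b) ∨ (x = b ∧ y = a ∧ z = c) ∨
  (x = b ∧ y = c ∧ z = a) ∨ (x = c ∧ y = a ∧ z = b) ∨ (x = c ∧ y = b ∧ z = a)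

/-- R is dissected into n triangles with side lengths a, b, c, the family being P -/
def IsT (a b c : ℝ) (R : Set E2) (n : ℕ) (P : Fin n → Fin 3 → E2) : Prop :=
  (∀ i, AffineIndependent ℝ (P i)) ∧
  (∀ i, Sd a b c (dist (P i 1) (P i 2)) (dist (P i 0) (P i 2)) (dist (P i 0) (P i 1))) ∧
  (⋃ i, TriSet (P i)) = R ∧
  (∀ i j, i ≠ j → Disjoint (interior (TriSet (P i))) (interior (TriSet (P j))))

/-- R can be dissected into finitely many triangles with side lengths a, b, c -/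
def Tlb (a b c : ℝ) (R : Set E2) : Prop := ∃ (n : ℕ) (P : Fin n → Fin 3 → E2), IsT a b c R n P

/-- parallelogram O, O + u, O + v, O + u + v -/
def Par (O u v : E2) : Set E2 := {p | ∃ s t : ℝ, 0 ≤ s ∧ s ≤ 1 ∧ 0 ≤ t ∧ t ≤ 1 ∧ p = O + s • u + t • v}

/-- JOB GLUE. Interiors of the pieces of R1 are inside interior R1; index set Fin (n1+n2) (Fin.append / Fin.addCases). -/
def S_GLUE : Prop := ∀ (a b c : ℝ) (R1 R2 : Set E2), Tlb a b c R1 → Tlb a b c R2 →
  Disjoint (interior R1) (interior R2) → Tlb a b c (R1 ∪ R2)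

/-- JOB TRIK. Assume S_KSQ. Triangle with sides k a, k b, k c (any order). -/
def S_TRIK : Prop := ∀ (a b c : ℝ) (k : ℕ), 0 < k → ∀ A B C : E2, AffineIndependent ℝ ![A, B, C] →
  Sd (k * a) (k * b) (k * c) (dist B C) (dist A C) (dist A B) → Tlb a b c (TriOf A B C)

/-- JOB PARA. m times n grid of the parallelogram on u, v, every cell cut by the diagonal from O + u to O + v. (Points in coordinates
(s,t): cells i <= s <= i+1, j <= t <= j+1, cut by s + t = i + j + 1. Translates and point reflections of the triangle 0, u, v.) -/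
def S_PARA : Prop := ∀ (a b c : ℝ) (m n : ℕ), 0 < m → 0 < n → ∀ (O u v : E2), AffineIndependent ℝ ![0, u, v] →
  Sd a b c ‖u‖ ‖v‖ ‖u - v‖ → Tlb a b c (Par O ((m : ℝ) • u) ((n : ℝ) • v))

/-- JOB DIAG. A parallelogram is the union of two triangles. -/
def S_DIAG : Prop := ∀ (O u v : E2), AffineIndependent ℝ ![0, u, v] →
  Par O u v = TriOf O (O + u) (O + u + v) ∪ TriOf O (O + v) (O + u + v)

/-- JOB STAR. Triangulation by an interior point P (assume S_SPLIT if useful: cut by the line A P, then both parts). -/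
def S_STAR : Prop := ∀ (A B C : E2) (x y z : ℝ), AffineIndependent ℝ ![A, B, C] → 0 < x → 0 < y → 0 < z → x + y + z = 1 →
  ∀ P : E2, P = x • A + y • B + z • C →
  AffineIndependent ℝ ![A, B, P] ∧ AffineIndependent ℝ ![B, C, P] ∧ AffineIndependent ℝ ![C, A, P] ∧
  TriOf A B C = TriOf A B P ∪ (TriOf B C P ∪ TriOf C A P) ∧
  Disjoint (interior (TriOf A B P)) (interior (TriOf B C P ∪ TriOf C A P)) ∧
  Disjoint (interior (TriOf B C P)) (interior (TriOf C A P))

/-- JOB ROW. Isosceles trapezoid with leg l = la a b, top la (a^2+b^2) + n b, in a 60 degree frame O, u, v (unit vectors with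
|u - v| = 1; then |x u + y v|^2 = x^2 + x y + y^2). Tile lengths e a, e b, e c; c^2 = a^2 + a b + b^2.
Left part (if n = 0 it is everything): W with vertices O, O + la c^2 u, O + l v, O + l v + la (a^2+b^2) u is the union of three triangles
with common vertex I = O + l v + la b^2 u: (O, O + la c^2 u, I), sides la c times the tile; (O, O + l v, I), la b times the tile;
(O + la c^2 u, O + l v + la(a^2+b^2) u, I), la a times the tile. Rest: parallelogram with base point O + la c^2 u and vectors n b u and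
l (v - u): angle 120 degrees, la b copies of a times n copies of b, third side c. Here all vectors are multiplied by e. -/
def S_ROW : Prop := ∀ (e : ℝ) (a b c la n : ℕ), 0 < e → 0 < a → 0 < b → 0 < c → 0 < la → c ^ 2 = a ^ 2 + a * b + b ^ 2 →
  ∀ (O u v : E2), ‖u‖ = 1 → ‖v‖ = 1 → ‖u - v‖ = 1 → ∀ l t : ℝ, l = e * (la * a * b) → t = e * (la * (a ^ 2 + b ^ 2) + n * b) →
  Tlb (e * a) (e * b) (e * c) {p | ∃ x y : ℝ, 0 ≤ x ∧ 0 ≤ y ∧ y ≤ l ∧ x + y ≤ t + l ∧ p = O + x • u + y • v}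

/-- JOB TRAP. Assume S_ROW, S_GLUE. Stack of k rows (la = b mu): the trapezoid with leg k l and top k l, l = e (b mu a b), when
a^2 + b^2 <= k a b. Row number i (i < k) is the part i l <= y <= (i+1) l, a translate by i l v, with top k l + (k-1-i) l =
e (b mu (a^2+b^2) + n b), n = mu ((2k-1-i) a b - a^2 - b^2)... (n >= 0 since 2k-1-i >= k). Induct on the number of rows from the top. -/
def S_TRAP : Prop := ∀ (e : ℝ) (a b c mu k : ℕ), 0 < e → 0 < a → 0 < b → 0 < c → 0 < mu → 0 < k → c ^ 2 = a ^ 2 + a * b + b ^ 2 →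
  a ^ 2 + b ^ 2 ≤ k * a * b →
  ∀ (O u v : E2), ‖u‖ = 1 → ‖v‖ = 1 → ‖u - v‖ = 1 → ∀ L : ℝ, L = e * (k * mu * a * b ^ 2) →
  Tlb (e * a) (e * b) (e * c) {p | ∃ x y : ℝ, 0 ≤ x ∧ 0 ≤ y ∧ y ≤ L ∧ x + y ≤ 2 * L ∧ p = O + x • u + y • v}

/-- JOB EQU. Assume S_TRAP, S_GLUE. Equilateral triangle with side 3 L, L = e ((a+b) mu a b^2): three trapezoids (leg L, top L, base
2 L) in the frames (A, u, v), (B, v - u, -u), (C, -v, u - v), where B = A + 3L u, C = A + 3L v; in coordinates (x,y) of the frame A, u, v they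
are: y <= L, x + y <= 2L; x >= L, x + y >= 2L; x <= L, y >= L. -/
def S_EQU : Prop := ∀ (e : ℝ) (a b c mu : ℕ), 0 < e → 0 < a → 0 < b → 0 < c → 0 < mu → c ^ 2 = a ^ 2 + a * b + b ^ 2 →
  ∀ A B C : E2, dist B C = e * (3 * (a + b) * mu * a * b ^ 2) → dist A C = e * (3 * (a + b) * mu * a * b ^ 2) →
  dist A B = e * (3 * (a + b) * mu * a * b ^ 2) → Tlb (e * a) (e * b) (e * c) (TriOf A B C)

/-- JOB C1 (family K1). Assume S_GLUE, S_TRIK, S_PARA, S_DIAG, S_STAR, S_SPLIT. r = c. Vertices A (side opposite e c a(b+c)),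
B (opposite e c c^2), C (opposite e c b c). Q = lineMap A C (b/c), R = lineMap B C (c/(b+c)), P = Q + R - C (coefficients
1 - b/c, b/(b+c), b^2/(c(b+c))). S_STAR at P, then S_SPLIT of C A P at Q and of B C P at R; PQC and PRC form the parallelogram P Q C R.
Lengths: A P = e c b^2, B P = e c a b, A B = e c b c (c b times the tile); A Q = e c b c, P Q = e c a b; B R = e c a c, P R = e c a^2;
parallelogram: P Q = (c b) (e a), P R = a^2 (e c), third side of the small triangle e b. -/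
def S_C1 : Prop := ∀ (e : ℝ) (a b c : ℕ), 0 < e → 0 < a → 0 < b → 0 < c → a ^ 2 + b * c = c ^ 2 →
  ∀ A B C : E2, AffineIndependent ℝ ![A, B, C] → dist B C = e * (c * (a * (b + c))) → dist A C = e * (c * c ^ 2) →
  dist A B = e * (c * (b * c)) → Tlb (e * a) (e * b) (e * c) (TriOf A B C)

/-- JOB C2F (family K2). Assume S_C1, S_GLUE, S_TRIK, S_SPLIT. D = lineMap A C (c/(b+2c)) on A C: the triangle A B D is of the kind S_C1 (B D =
e c a(b+c), A B = e c c^2, A D = e c b c; vertices in the order A, D, B) and B C D is c (b+c) times the tile (B C = e c c(b+c), D C = e c b(b+c), B D = e c a(b+c)). -/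
def S_C2F : Prop := ∀ (e : ℝ) (a b c : ℕ), 0 < e → 0 < a → 0 < b → 0 < c → a ^ 2 + b * c = c ^ 2 →
  ∀ A B C : E2, AffineIndependent ℝ ![A, B, C] → dist B C = e * (c * (c * (b + c))) → dist A C = e * (c * (b * (b + 2 * c))) →
  dist A B = e * (c * c ^ 2) → Tlb (e * a) (e * b) (e * c) (TriOf A B C)

/-- JOB C6 (family K6). Assume S_EQU, S_GLUE, S_TRIK, S_STAR, S_SPLIT. r = 3 (a+b) b nu. Vertices A (2 al), B (2 be), C (60 degrees):
A B = e r c^2, B C = e r a(a+2b), A C = e r b(2a+b). D = lineMap A C (b/(2a+b)), E = lineMap B C (a/(a+2b)), I = midpoint of D E.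
S_STAR at I, S_SPLIT of C A I at D and of B C I at E; I D C and I E C form the triangle C D E (S_SPLIT at I), equilateral with side
e 2 a b r = e 3 (a+b) (2 nu) a b^2. A B I is r c times the tile, A I D is r b times, B I E is r a times the tile. -/
def S_C6 : Prop := ∀ (e : ℝ) (a b c nu : ℕ), 0 < e → 0 < a → 0 < b → 0 < c → 0 < nu → c ^ 2 = a ^ 2 + a * b + b ^ 2 →
  ∀ r : ℝ, r = 3 * (a + b) * b * nu →
  ∀ A B C : E2, AffineIndependent ℝ ![A, B, C] → dist A B = e * (r * c ^ 2) → dist B C = e * (r * (a * (a + 2 * b))) →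
  dist A C = e * (r * (b * (2 * a + b))) → Tlb (e * a) (e * b) (e * c) (TriOf A B C)

/-- JOB C3 (family K3). Assume S_C6, S_GLUE, S_TRIK, S_SPLIT. r = 3 (a+b) b. B C = e r 3a(a+b), A C = e r (2a+b)c, A B = e r c^2. D = lineMap B C
((a+2b)/(3(a+b))): B D = e r a(a+2b), A D = e r b(2a+b), so A B D is of the kind S_C6 (vertices A, B, D), and D C = e r a(2a+b), so A D C is
r (2a+b) times the tile. -/
def S_C3 : Prop := ∀ (e : ℝ) (a b c : ℕ), 0 < e → 0 < a → 0 < b → 0 < c → c ^ 2 = a ^ 2 + a * b + b ^ 2 →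
  ∀ r : ℝ, r = 3 * (a + b) * b →
  ∀ A B C : E2, AffineIndependent ℝ ![A, B, C] → dist B C = e * (r * (3 * a * (a + b))) →
  dist A C = e * (r * ((2 * a + b) * c)) → dist A B = e * (r * c ^ 2) → Tlb (e * a) (e * b) (e * c) (TriOf A B C)

/-- JOB C4 (family K4). Assume S_EQU, S_GLUE, S_TRIK, S_SPLIT. r = 3 (a+b) a b. B C = e r (a+b), A C = e r c, A B = e r b. D = lineMap B C (b/(a+b)):
A B D equilateral with side e r b = e 3 (a+b) 1 a b^2, A D C is r times the tile (A D = e r b, D C = e r a). -/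
def S_C4 : Prop := ∀ (e : ℝ) (a b c : ℕ), 0 < e → 0 < a → 0 < b → 0 < c → c ^ 2 = a ^ 2 + a * b + b ^ 2 →
  ∀ r : ℝ, r = 3 * (a + b) * a * b →
  ∀ A B C : E2, AffineIndependent ℝ ![A, B, C] → dist B C = e * (r * (a + b)) → dist A C = e * (r * c) →
  dist A B = e * (r * b) → Tlb (e * a) (e * b) (e * c) (TriOf A B C)

/-- JOB C5 (family K5). Assume S_C6, S_GLUE, S_TRIK, S_SPLIT. r = c r1, r1 = 3 (a+b) b. B C = e r (a+b)c, A C = e r b(2a+b), A B = e r a c.
D on B C with B D = e (r1 a) a(a+2b) and D C = e r1 b b(2a+b) ((a+b) c^2 = a^2 (a+2b) + b^2 (2a+b)): A D = e (r1 a) b(2a+b),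
A B = e (r1 a) c^2, so A B D is of the kind S_C6 with nu = a (vertices A, B, D), and A D C is r1 b (2a+b) times the tile
(A C = e r1 b(2a+b) c, A D = e r1 b(2a+b) a, D C = e r1 b(2a+b) b). -/
def S_C5 : Prop := ∀ (e : ℝ) (a b c : ℕ), 0 < e → 0 < a → 0 < b → 0 < c → c ^ 2 = a ^ 2 + a * b + b ^ 2 →
  ∀ r : ℝ, r = c * (3 * (a + b) * b) →
  ∀ A B C : E2, AffineIndependent ℝ ![A, B, C] → dist B C = e * (r * ((a + b) * c)) →
  dist A C = e * (r * (b * (2 * a + b))) → dist A B = e * (r * (a * c)) → Tlb (e * a) (e * b) (e * c) (TriOf A B C)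

/-- sixteen times the squared area, from the side lengths -/
def H (x y z : ℝ) : ℝ := 2 * x ^ 2 * y ^ 2 + 2 * y ^ 2 * z ^ 2 + 2 * z ^ 2 * x ^ 2 - x ^ 4 - y ^ 4 - z ^ 4

/-- JOB CUT. Assume S_ISOM. The pieces are congruent by S_ISOM (reorder the vertices; TriSet does not depend on the order), so T can be cut into n
congruent triangles; n is at least 1; areas: use Pool.Agent.Helper549.Tri.Setup (orient, hull_img; see setup) to get a Dis n T t in
complex coordinates and area_sum (sum of dd (t i) = dd T), with (dd v)^2 = H (side lengths) / 4. -/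
def S_CUT : Prop := ∀ (a b c : ℝ) (T : Fin 3 → E2), AffineIndependent ℝ T → Tlb a b c (TriSet T) →
  ∃ n : ℕ, 1 ≤ n ∧ CanCut T n ∧ (n : ℝ) ^ 2 * H a b c = H (side T 0) (side T 1) (side T 2)

end Q16.SQ
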