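import Mathlib
import Pool.Agent.Q16.SQ.Stm
import Pool.Agent.Q16.SQ.Stm2
import Pool.Agent.Helper549.Tri.PermX
set_option autoImplicit false
noncomputable section
open scoped BigOperators
open Pool.Agent.Helper549.Tri

namespace Q16.SQ

/-- right triangle with rational ratio of the legs and hypotenuse incommensurable with a leg -/
def RightX (S A : Fin 3 → ℝ) : Prop :=
  ∃ i j k, i ≠ j ∧ j ≠ k ∧ i ≠ k ∧ A i = Real.pi / 2 ∧ (∃ q : ℚ, S j = q * S k) ∧ Irrational (S i / S j)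

theorem RightX.perm {S A : Fin 3 → ℝ} (π : Equiv.Perm (Fin 3)) (h : RightX (fun j => S (π j)) (fun j => A (π j))) :
    RightX S A := by
  obtain ⟨i, j, k, hij, hjk, hik, h1, h2, h3⟩ := h
  exact ⟨π i, π j, π k, π.injective.ne hij, π.injective.ne hjk, π.injective.ne hik, h1, h2, h3⟩

theorem Fam.perm {S : Fin 3 → ℝ} (π : Equiv.Perm (Fin 3)) (h : Fam (fun j => S (π j))) : Fam S := by
  obtain ⟨i, j, k, hij, hjk, hik, x, y, z, hF, r, hr, h1, h2, h3⟩ := h
  exact ⟨π i, π j, π k, π.injective.ne hij, π.injective.ne hjk, π.injective.ne hik, x, y, z, hF, r, hr, h1, h2, h3⟩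

theorem C2.perm_types {κ β : Fin 3 → Fin 3 → ℕ} (σ : Equiv.Perm (Fin 3)) (h : C2 κ β) :
    C2 (fun j k => κ j (σ k)) (fun j k => β j (σ k)) := by
  intro j k k' hjk hjk' hkk' hs
  have hs' : 2 ≤ ∑ x, κ j x := by
    rw [← Equiv.sum_comp σ]
    exact hs
  obtain ⟨x, y, x', y', h1, h2, h3, h4, h5, h6, h7⟩ := h j k k' hjk hjk' hkk' hs'
  refine ⟨σ.symm x, σ.symm y, σ.symm x', σ.symm y', σ.symm.injective.ne h1, σ.symm.injective.ne h2, ?_, ?_, ?_, ?_, ?_⟩
  · simpa using h3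
  · simpa using h4
  · intro he
    have := h5 (σ.symm.injective he)
    simpa using this
  · simpa using h6
  · simpa using h7

theorem C2.perm_corners {κ β : Fin 3 → Fin 3 → ℕ} (π : Equiv.Perm (Fin 3)) (h : C2 κ β) :
    C2 (fun j => κ (π j)) (fun j => β (π j)) := by
  intro j k k' hjk hjk' hkk' hs
  exact h (π j) (π k) (π k') (π.injective.ne hjk) (π.injective.ne hjk') (π.injective.ne hkk') hs

theorem iso_false2 {N : ℕ} {ℓ θ S A : Fin 3 → ℝ} {κ β : Fin 3 → Fin 3 → ℕ} (h : Data N ℓ θ S A κ β)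
    (hsc : ∀ i j, i ≠ j → A i ≠ A j) (hi : IsoK κ) : False := by
  obtain ⟨i, j, hij, hk⟩ := hi
  apply hsc i j hij
  rw [h.angles, h.angles, hk]

theorem core2 (hSIMC : S_SIMC) (hRIGHT : S_RIGHT) (hENUM : S_ENUM)
    (h1 : S_F1) (h2 : S_F2) (h3 : S_F3) (h4 : S_F4) (h5 : S_F5) (h6 : S_F6)
    {N : ℕ} (hN : ¬ IsSquare N) {ℓ θ S A : Fin 3 → ℝ} {κ β : Fin 3 → Fin 3 → ℕ}
    (h : Data N ℓ θ S A κ β) (hC : C2 κ β) (hsc : ∀ i j, i ≠ j → A i ≠ A j) (P : Fin 3 → ℕ)
    (hP : P = ![1, 1, 1] ∨ P = ![2, 0, 1] ∨ P = ![3, 0, 1] ∨ P = ![2, 2, 0] ∨ P = ![3, 2, 0] ∨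
        P = ![3, 3, 0] ∨ P = ![0, 0, 3]) (hc : ∀ k, ∑ j, κ j k = P k) : RightX S A ∨ Fam S := by
  obtain ⟨n111, n201, n003, n301, n220, n320, n330⟩ := hENUM κ h.kpos
  rcases hP with rfl | rfl | rfl | rfl | rfl | rfl | rfl
  · obtain ⟨π, hπ⟩ := n111 hc
    exact absurd hπ (hSIMC (h.perm_corners π) hN).1
  · exact (iso_false2 h hsc (n201 hc)).elim
  · rcases n301 hc with hi | ⟨π, hπ⟩
    · exact (iso_false2 h hsc hi).elim
    · exact absurd hπ (hSIMC (h.perm_corners π) hN).2.1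
  · rcases n220 hc with hi | ⟨π, hπ⟩
    · exact (iso_false2 h hsc hi).elim
    · left
      have hD := h.perm_corners π
      obtain ⟨h1, p, q, hp, hq, h2, h3, h4⟩ := hRIGHT hD hN hπ
      apply RightX.perm π
      have hl := hD.lpos 2
      have hp' : (0 : ℝ) < p := by exact_mod_cast hp
      have hq' : (0 : ℝ) < q := by exact_mod_cast hq
      refine ⟨2, 0, 1, by decide, by decide, by decide, h1, ⟨(p / q : ℚ), ?_⟩, ?_⟩
      · simp only at h2 h3 ⊢
        rw [h2, h3]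
        push_cast
        field_simp
      · simp only at h2 h4 ⊢
        rw [h2, h4]
        have h5 : Real.sqrt N * ℓ 2 / (p * ℓ 2) = Real.sqrt N / p := by
          field_simp
        rw [h5]
        have h6 : Irrational (Real.sqrt N) := irrational_sqrt_natCast_iff.mpr hN
        exact h6.div_natCast hp.ne'
  · rcases n320 hc with hi | ⟨π, hπ⟩
    · exact (iso_false2 h hsc hi).elim
    · have hD := h.perm_corners π
      rcases hπ with hπ | hπ | hπ
      · exact absurd hπ (hSIMC hD hN).2.2.1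
      · exact Or.inr (Fam.perm π (h1 hD hN hπ))
      · exact Or.inr (Fam.perm π (h2 hD hN hπ))
  · rcases n330 hc with hi | ⟨π, hπ⟩
    · exact (iso_false2 h hsc hi).elim
    · have hD := h.perm_corners π
      have hD' := hD.perm_types (Equiv.swap 0 1)
      have hCC := hC.perm_corners π
      have hCC' := hCC.perm_types (Equiv.swap 0 1)
      have hsw : ∀ K K' : Fin 3 → Fin 3 → ℕ, (fun j => κ (π j)) = K → (∀ j k, K j (Equiv.swap 0 1 k) = K' j k) →
          (fun j k => κ (π j) (Equiv.swap 0 1 k)) = K' := by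
        intro K K' hK hKK
        funext j k
        have h8 : κ (π j) (Equiv.swap 0 1 k) = K j (Equiv.swap 0 1 k) :=
          congrFun (congrFun hK j) (Equiv.swap 0 1 k)
        rw [h8, hKK]
      rcases hπ with hπ | hπ | hπ | hπ | hπ | hπ | hπ | hπ
      · exact absurd hπ (hSIMC hD hN).2.2.2
      · exact Or.inr (Fam.perm π (h3 hD hN hπ))
      · exact Or.inr (Fam.perm π (h3 hD' hN (hsw _ K3 hπ (by decide))))
      · exact Or.inr (Fam.perm π (h4 hD hCC hN hπ))
      · exact Or.inr (Fam.perm π (h4 hD' hCC' hN (hsw _ K4 hπ (by decide))))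
      · exact Or.inr (Fam.perm π (h5 hD hN hπ))
      · exact Or.inr (Fam.perm π (h5 hD' hN (hsw _ K5 hπ (by decide))))
      · exact Or.inr (Fam.perm π (h6 hD hN hπ))
  · exact (iso_false2 h hsc (n003 hc)).elim

end Q16.SQ
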