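import Mathlib
import Pool.Agent.Q16.SQ.Core2
import Pool.Agent.Helper549.Tri.DataDis
import Pool.Agent.Helper549.Tri.ClassDis
import Pool.Agent.Helper549.Tri.Setup
set_option autoImplicit false
noncomputable section
open scoped BigOperators
open Pool.Agent.Helper549.Tri

namespace Q16.SQ

theorem side_perm (T : Fin 3 → E2) (ρ : Equiv.Perm (Fin 3)) (k : Fin 3) :
    dist (T (ρ (k + 1))) (T (ρ (k + 2))) = side T (ρ k) := by
  unfold side
  rcases Setup.perm3 ρ k with ⟨h1, h2⟩ | ⟨h1, h2⟩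
  · rw [h1, h2]
  · rw [h1, h2, dist_comm]

theorem angle_perm' (T : Fin 3 → E2) (ρ : Equiv.Perm (Fin 3)) (k : Fin 3) :
    EuclideanGeometry.angle (T (ρ (k + 1))) (T (ρ k)) (T (ρ (k + 2))) = angle T (ρ k) := by
  unfold angle
  rcases Setup.perm3 ρ k with ⟨h1, h2⟩ | ⟨h1, h2⟩
  · rw [h1, h2]
  · rw [h1, h2, EuclideanGeometry.angle_comm]

theorem to_data2 (hCor : S_CORNER2) {T : Fin 3 → E2} (hT : AffineIndependent ℝ T) {N : ℕ} (hN : ¬ IsSquare N)
    (hc : CanCut T N) (hirr : ∃ i, ¬ ∃ q : ℚ, angle T i = q * Real.pi) :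
    ∃ (ρ : Equiv.Perm (Fin 3)) (ℓ θ : Fin 3 → ℝ) (κ β : Fin 3 → Fin 3 → ℕ) (P : Fin 3 → ℕ),
      Data N ℓ θ (fun k => side T (ρ k)) (fun k => angle T (ρ k)) κ β ∧ C2 κ β ∧
      (P = ![1, 1, 1] ∨ P = ![2, 0, 1] ∨ P = ![3, 0, 1] ∨ P = ![2, 2, 0] ∨ P = ![3, 2, 0] ∨
        P = ![3, 3, 0] ∨ P = ![0, 0, 3]) ∧ (∀ k, ∑ j, κ j k = P k) := by
  obtain ⟨P, hP, hcong, hU, hD⟩ := hc
  have h2 : 2 ≤ N := by
    by_contra hcon
    have h3 : N = 0 ∨ N = 1 := by omega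
    rcases h3 with rfl | rfl
    · exact hN ⟨0, rfl⟩
    · exact hN ⟨1, rfl⟩
  have _ : NeZero N := ⟨by omega⟩
  have hdist : ∀ i, ∃ σ : Equiv.Perm (Fin 3), ∀ k l,
      dist (P i k) (P i l) = dist (P 0 (σ k)) (P 0 (σ l)) := by
    intro i
    obtain ⟨f, hf⟩ := hcong 0 i
    exact Setup.cong_perm (P 0) (P i) (hP 0) (hP i) f hf
  obtain ⟨TC, t, τ, ℓ, θ, ρ, h, hlen, hang, hTC⟩ := Setup.setup T P hT hP hdist hU hD
  have hlenT : len TC = fun k => side T (ρ k) := by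
    funext k
    rw [hTC k, side_perm]
  have hd : ∀ k, dist (TC (k + 2)) (TC (k + 1)) = dist (T (ρ (k + 2))) (T (ρ (k + 1))) := by
    intro k
    have := hTC k
    unfold len sd at this
    rw [← dist_eq_norm] at this
    rw [this, dist_comm]
  have hangT : ang TC = fun k => angle T (ρ k) := by
    funext k
    rw [← angle_perm' T ρ k]
    unfold ang
    have e1 : ∀ k : Fin 3, k + 2 + 2 = k + 1 ∧ k + 2 + 1 = k ∧ k + 1 + 1 = k + 2 ∧ k + 1 + 2 = k := by decide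
    obtain ⟨a1, a2, a3, a4⟩ := e1 k
    have d0 := hd k
    have d1 := hd (k + 1)
    have d2 := hd (k + 2)
    rw [a3, a4] at d1
    rw [a1, a2] at d2
    refine Setup.angle_of_dist _ _ _ _ _ _ d2 ?_ ?_
    · rw [dist_comm, d1, dist_comm]
    · rw [dist_comm, d0, dist_comm]
  have hrat : ¬ ∀ k, ∃ q : ℚ, θ k = q * Real.pi := by
    intro hr
    choose q hq using hr
    obtain ⟨i, hi⟩ := hirr
    apply hi
    have h3 := Vertex.corner_angles h τ θ hang (ρ.symm i)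
    rw [congrFun hangT (ρ.symm i)] at h3
    simp only [Equiv.apply_symm_apply] at h3
    refine ⟨∑ k, (cnt t τ (TC (ρ.symm i)) k : ℚ) * q k, ?_⟩
    rw [← h3]
    push_cast
    rw [Finset.sum_mul]
    exact Finset.sum_congr rfl fun k _ => by rw [hq k]; ring
  have hDat := DataDis.data_of_dis h2 h τ ℓ θ hlen hang hrat
  obtain ⟨σ, P', hP', hc'⟩ := ClassDis.class_of_dis (by omega) h τ θ hang hrat
  rw [hlenT, hangT] at hDat
  refine ⟨ρ, _, _, _, _, P', hDat.perm_types σ, (hCor h τ).perm_types σ, hc', ?_⟩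
  intro k
  exact hP' k

end Q16.SQ
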