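import Mathlib
import Pool.Agent.Q16.SQ.Core2
import Pool.Agent.Q16.SQ.Bridge2
set_option autoImplicit false
noncomputable section
open scoped BigOperators
open Pool.Agent.Helper549.Tri

namespace Q16.SQ

theorem TriSet_perm (T : Fin 3 → E2) (π : Equiv.Perm (Fin 3)) : TriSet (fun k => T (π k)) = TriSet T := by
  unfold TriSet
  have : Set.range (fun k => T (π k)) = Set.range T := by
    ext z
    constructor
    · rintro ⟨k, rfl⟩
      exact ⟨π k, rfl⟩
    · rintro ⟨k, rfl⟩
      exact ⟨π.symm k, by simp⟩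
  rw [this]

theorem CanCut_perm (T : Fin 3 → E2) (π : Equiv.Perm (Fin 3)) (N : ℕ) (h : CanCut (fun k => T (π k)) N) :
    CanCut T N := by
  obtain ⟨P, h1, h2, h3, h4⟩ := h
  exact ⟨P, h1, h2, by rw [h3, TriSet_perm], h4⟩

theorem exists_perm (i j k : Fin 3) (hij : i ≠ j) (hjk : j ≠ k) (hik : i ≠ k) :
    ∃ π : Equiv.Perm (Fin 3), π 0 = i ∧ π 1 = j ∧ π 2 = k := by
  revert i j k
  decide

theorem side_eq (T : Fin 3 → E2) (i j k : Fin 3) (hij : i ≠ j) (hjk : j ≠ k) (hik : i ≠ k) :
    side T i = dist (T j) (T k) := by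
  unfold side
  have h : (i + 1 = j ∧ i + 2 = k) ∨ (i + 1 = k ∧ i + 2 = j) := by
    revert i j k
    decide
  rcases h with ⟨h1, h2⟩ | ⟨h1, h2⟩
  · rw [h1, h2]
  · rw [h1, h2, dist_comm]

theorem side_pos (T : Fin 3 → E2) (hT : AffineIndependent ℝ T) (i : Fin 3) : 0 < side T i := by
  unfold side
  apply dist_pos.mpr
  apply hT.injective.ne
  revert i
  decide

theorem third (i j : Fin 3) (hij : i ≠ j) : ∃ k, i ≠ k ∧ j ≠ k := by
  revert i j
  decide

theorem iso_not (hISO : S_ISO2) (T : Fin 3 → E2) (hT : AffineIndependent ℝ T) (h : SquareOnly T) :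
    ∀ i j, i ≠ j → side T i ≠ side T j := by
  intro i j hij he
  obtain ⟨k, hik, hjk⟩ := third i j hij
  obtain ⟨π, h0, h1, h2⟩ := exists_perm k i j hik.symm hij hjk.symm
  have hc : CanCut (fun k => T (π k)) 2 := by
    apply hISO
    · exact hT.comp_embedding π.toEmbedding
    · simp only [h0, h1, h2]
      rw [side_eq T i k j hik hjk.symm hij, side_eq T j k i hjk hik.symm hij.symm] at he
      exact he.symm
  obtain ⟨r, hr⟩ := h 2 (by norm_num) (CanCut_perm T π 2 hc)
  have hr1 : r ≤ 1 := by nlinarith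
  interval_cases r <;> omega

theorem right_not (hR : S_RCUT) (T : Fin 3 → E2) (hT : AffineIndependent ℝ T) (h : SquareOnly T) :
    ¬ RightX (side T) (angle T) := by
  rintro ⟨i, j, k, hij, hjk, hik, ha, ⟨q, hq⟩, hirr⟩
  have hj := side_pos T hT j
  have hk := side_pos T hT k
  have hi := side_pos T hT i
  have hqpos : 0 < q := by
    by_contra hcon
    have h1 : (q : ℝ) ≤ 0 := by exact_mod_cast not_lt.mp hcon
    have h2 : (q : ℝ) * side T k ≤ 0 := mul_nonpos_of_nonpos_of_nonneg h1 hk.le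
    linarith
  have hnum : 0 < q.num := Rat.num_pos.mpr hqpos
  obtain ⟨a, hna⟩ : ∃ a : ℕ, q.num = a := ⟨q.num.toNat, (Int.toNat_of_nonneg hnum.le).symm⟩
  set b : ℕ := q.den with hb
  have hb0 : 0 < b := q.den_pos
  have ha0 : 0 < a := by
    have : (0 : ℤ) < a := by rw [← hna]; exact hnum
    exact_mod_cast this
  have hbR : (0 : ℝ) < b := by exact_mod_cast hb0
  have haR : (0 : ℝ) < a := by exact_mod_cast ha0
  have hqab : (q : ℝ) = a / b := by
    rw [Rat.cast_def, hna]
    simp [hb]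
  obtain ⟨π, h0, h1, h2⟩ := exists_perm i j k hij hjk hik
  have sk : side T k = dist (T i) (T j) := side_eq T k i j hik.symm hij hjk.symm
  have sj : side T j = dist (T i) (T k) := side_eq T j i k hij.symm hik hjk
  have si : side T i = dist (T j) (T k) := side_eq T i j k hij hjk hik
  have hrel : (a : ℝ) * side T k = b * side T j := by
    rw [hq, hqab]
    field_simp
  have hang : angle (fun k => T (π k)) 0 = Real.pi / 2 := by
    rw [← ha, ← h0]
    exact angle_perm' T π 0
  have hc : CanCut (fun k => T (π k)) (b ^ 2 + a ^ 2) := by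
    apply hR
    · exact hT.comp_embedding π.toEmbedding
    · exact hang
    · exact hb0
    · exact ha0
    · simp only [h0, h1, h2]
      rw [← sk, ← sj]
      exact hrel
  obtain ⟨s, hs⟩ := h _ (by nlinarith) (CanCut_perm T π _ hc)
  have hpy : side T i ^ 2 = side T k ^ 2 + side T j ^ 2 := by
    have h5 : EuclideanGeometry.angle (T j) (T i) (T k) = Real.pi / 2 := by
      have h6 := angle_perm' T π 0
      have h7 : angle T (π 0) = Real.pi / 2 := by rw [h0, ha]
      rw [h7] at h6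
      have e1 : (0 : Fin 3) + 1 = 1 := rfl
      have e2 : (0 : Fin 3) + 2 = 2 := rfl
      rw [e1, e2, h0, h1, h2] at h6
      exact h6
    have h6 := (EuclideanGeometry.dist_sq_eq_dist_sq_add_dist_sq_iff_angle_eq_pi_div_two (T j) (T i) (T k)).mpr h5
    rw [si, sk, sj]
    rw [dist_comm (T j) (T i), dist_comm (T k) (T i)] at h6
    nlinarith
  have hs' : (b : ℝ) ^ 2 + (a : ℝ) ^ 2 = (s : ℝ) * s := by exact_mod_cast hs
  have h8 : (side T i * a) ^ 2 = (s * side T j) ^ 2 := by
    have h9 : (a : ℝ) ^ 2 * side T k ^ 2 = b ^ 2 * side T j ^ 2 := by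
      rw [← mul_pow, ← mul_pow, hrel]
    rw [mul_pow, mul_pow, hpy]
    linear_combination h9 + (side T j) ^ 2 * hs'
  have h10 : side T i * a = s * side T j := by
    have hpos1 : 0 ≤ side T i * a := by positivity
    have hpos2 : 0 ≤ (s : ℝ) * side T j := by positivity
    exact (pow_left_inj₀ hpos1 hpos2 two_ne_zero).mp h8
  apply hirr
  refine ⟨(s : ℚ) / a, ?_⟩
  push_cast
  rw [div_eq_div_iff haR.ne' hj.ne']
  linarith

theorem main2 (hSIMC : S_SIMC) (hRIGHT : S_RIGHT) (hENUM : S_ENUM)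
    (h1 : S_F1) (h2 : S_F2) (h3 : S_F3) (h4 : S_F4) (h5 : S_F5) (h6 : S_F6) (hCor : S_CORNER2)
    (hISO : S_ISO2) (hR : S_RCUT) (T : Fin 3 → E2) (hT : AffineIndependent ℝ T)
    (hirr : ∃ i, ¬ ∃ q : ℚ, angle T i = q * Real.pi) (hfam : ¬ Fam (side T)) :
    SquareOnly T ↔ ((∀ i j, i ≠ j → side T i ≠ side T j) ∧ ¬ RightX (side T) (angle T)) := by
  constructor
  · intro h
    exact ⟨iso_not hISO T hT h, right_not hR T hT h⟩
  · rintro ⟨hs, hr⟩ N - hcut
    by_contra hN
    obtain ⟨ρ, ℓ, θ, κ, β, P, hD, hCC, hP, hc⟩ := to_data2 hCor hT hN hcut hirr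
    have hsc : ∀ i j, i ≠ j → angle T (ρ i) ≠ angle T (ρ j) := by
      intro i j hij he
      apply hs (ρ i) (ρ j) (ρ.injective.ne hij)
      have h1 : side T (ρ i) * Real.sin (angle T (ρ j)) = side T (ρ j) * Real.sin (angle T (ρ i)) :=
        hD.sineT i j
      rw [← he] at h1
      have h2 : 0 < Real.sin (angle T (ρ i)) := by
        apply Real.sin_pos_of_pos_of_lt_pi
        · exact hD.Apos i
        · have h3 : angle T (ρ 0) + angle T (ρ 1) + angle T (ρ 2) = Real.pi := hD.Asum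
          have p0 : 0 < angle T (ρ 0) := hD.Apos 0
          have p1 : 0 < angle T (ρ 1) := hD.Apos 1
          have p2 : 0 < angle T (ρ 2) := hD.Apos 2
          have h4 : ∀ i : Fin 3, i = 0 ∨ i = 1 ∨ i = 2 := by decide
          rcases h4 i with rfl | rfl | rfl <;> linarith
      exact mul_right_cancel₀ h2.ne' h1
    rcases core2 hSIMC hRIGHT hENUM h1 h2 h3 h4 h5 h6 hN hD hCC hsc P hP hc with h1 | h1
    · exact hr (RightX.perm ρ h1)
    · exact hfam (Fam.perm ρ h1)

end Q16.SQ
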