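import Mathlib
import Pool.Agent.Q16.SQ.Final2
import Pool.Agent.Q16.SQ.Stm3
set_option autoImplicit false
noncomputable section
open scoped BigOperators
open Pool.Agent.Helper549.Tri

namespace Q16.SQ

/-- the function H in terms of squares -/
def G (x y z : ℝ) : ℝ := 2 * x * y + 2 * y * z + 2 * z * x - x ^ 2 - y ^ 2 - z ^ 2

theorem H_sq (x y z : ℝ) : H x y z = G (x ^ 2) (y ^ 2) (z ^ 2) := by
  unfold H G; ring

theorem H_scale (r x y z : ℝ) : H (r * x) (r * y) (r * z) = r ^ 4 * H x y z := by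
  unfold H; ring

theorem H_swap (x y z : ℝ) : H x z y = H x y z := by
  unfold H; ring

theorem H_perm (S : Fin 3 → ℝ) (i j k : Fin 3) (hij : i ≠ j) (hjk : j ≠ k) (hik : i ≠ k) :
    H (S i) (S j) (S k) = H (S 0) (S 1) (S 2) := by
  have h01 : ∀ i : Fin 3, i = 0 ∨ i = 1 ∨ i = 2 := by decide
  rcases h01 i with rfl | rfl | rfl <;> rcases h01 j with rfl | rfl | rfl <;>
    rcases h01 k with rfl | rfl | rfl <;>
    first
    | exact absurd rfl hij
    | exact absurd rfl hjk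
    | exact absurd rfl hik
    | (unfold H; ring)

theorem H_pos1 (a b c : ℝ) (hb : 0 < b) (hc : 0 < c) (h : a ^ 2 + b * c = c ^ 2) (ha : 0 < a) :
    0 < H a b c := by
  have h2 : a ^ 2 = c ^ 2 - b * c := by linarith
  have e : H a b c = b ^ 2 * (c - b) * (3 * c + b) := by
    rw [H_sq, h2]; unfold G; ring
  have h3 : b < c := by
    have : 0 < c * (c - b) := by nlinarith [sq_nonneg a, pow_pos ha 2]
    have := (pos_iff_pos_of_mul_pos this).mp hc
    linarith
  rw [e]
  have : 0 < c - b := by linarith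
  positivity

theorem H_pos2 (a b c : ℝ) (ha : 0 < a) (hb : 0 < b) (h : c ^ 2 = a ^ 2 + a * b + b ^ 2) :
    0 < H a b c := by
  have e : H a b c = 3 * a ^ 2 * b ^ 2 := by
    rw [H_sq, h]; unfold G; ring
  rw [e]; positivity

theorem H_K1 (a b c : ℝ) (h : a ^ 2 + b * c = c ^ 2) :
    H (a * (b + c)) (c ^ 2) (b * c) = (c * (b + c)) ^ 2 * H a b c := by
  have h2 : a ^ 2 = c ^ 2 - b * c := by linarith
  have e1 : H (a * (b + c)) (c ^ 2) (b * c) = G (a ^ 2 * (b + c) ^ 2) (c ^ 4) (b ^ 2 * c ^ 2) := by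
    unfold H G; ring
  rw [e1, H_sq a b c, h2]; unfold G; ring

theorem H_K2 (a b c : ℝ) (h : a ^ 2 + b * c = c ^ 2) :
    H (c * (b + c)) (b * (b + 2 * c)) (c ^ 2) = ((b + c) * (b + 2 * c)) ^ 2 * H a b c := by
  have h2 : a ^ 2 = c ^ 2 - b * c := by linarith
  rw [H_sq a b c, h2]; unfold G H; ring

theorem H_K3 (a b c : ℝ) (h : c ^ 2 = a ^ 2 + a * b + b ^ 2) :
    H (3 * a * (a + b)) ((2 * a + b) * c) (c ^ 2) = (3 * (a + b) * (2 * a + b)) ^ 2 * H a b c := by
  have e1 : H (3 * a * (a + b)) ((2 * a + b) * c) (c ^ 2) =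
      G ((3 * a * (a + b)) ^ 2) ((2 * a + b) ^ 2 * c ^ 2) ((c ^ 2) ^ 2) := by
    unfold H G; ring
  rw [e1, H_sq a b c, h]; unfold G; ring

theorem H_K4 (a b c : ℝ) (h : c ^ 2 = a ^ 2 + a * b + b ^ 2) :
    a ^ 2 * H (a + b) c b = (a + b) ^ 2 * H a b c := by
  rw [H_sq a b c, H_sq (a + b) c b, h]; unfold G; ring

theorem H_K5 (a b c : ℝ) (h : c ^ 2 = a ^ 2 + a * b + b ^ 2) :
    H ((a + b) * c) (b * (2 * a + b)) (a * c) = ((a + b) * (2 * a + b)) ^ 2 * H a b c := by
  have e1 : H ((a + b) * c) (b * (2 * a + b)) (a * c) =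
      G ((a + b) ^ 2 * c ^ 2) ((b * (2 * a + b)) ^ 2) (a ^ 2 * c ^ 2) := by
    unfold H G; ring
  rw [e1, H_sq a b c, h]; unfold G; ring

theorem H_K6 (a b c : ℝ) (h : c ^ 2 = a ^ 2 + a * b + b ^ 2) :
    H (a * (a + 2 * b)) (c ^ 2) (b * (2 * a + b)) = ((a + 2 * b) * (2 * a + b)) ^ 2 * H a b c := by
  have e1 : H (a * (a + 2 * b)) (c ^ 2) (b * (2 * a + b)) =
      G ((a * (a + 2 * b)) ^ 2) ((c ^ 2) ^ 2) ((b * (2 * a + b)) ^ 2) := by
    unfold H G; ring
  rw [e1, H_sq a b c, h]; unfold G; ring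

theorem sq_cancel (s m : ℕ) (hs : 0 < s) (h : IsSquare (s ^ 2 * m)) : IsSquare m := by
  obtain ⟨t, ht⟩ := h
  have h1 : s ^ 2 ∣ t ^ 2 := ⟨m, by rw [sq t, ← ht]⟩
  have h2 : s ∣ t := (Nat.pow_dvd_pow_iff two_ne_zero).mp h1
  obtain ⟨u, rfl⟩ := h2
  refine ⟨u, ?_⟩
  have h3 : s ^ 2 * m = s ^ 2 * (u * u) := by rw [ht]; ring
  exact Nat.eq_of_mul_eq_mul_left (pow_pos hs 2) h3

theorem triOf_eq (T : Fin 3 → E2) (i j k : Fin 3) (hij : i ≠ j) (hjk : j ≠ k) (hik : i ≠ k) :
    TriOf (T i) (T j) (T k) = TriSet T := by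
  obtain ⟨π, h0, h1, h2⟩ := exists_perm i j k hij hjk hik
  rw [← TriSet_perm T π]
  unfold TriOf
  congr 1
  funext l
  fin_cases l
  · exact congrArg T h0.symm
  · exact congrArg T h1.symm
  · exact congrArg T h2.symm

theorem ai_of (T : Fin 3 → E2) (hT : AffineIndependent ℝ T) (i j k : Fin 3) (hij : i ≠ j) (hjk : j ≠ k)
    (hik : i ≠ k) : AffineIndependent ℝ ![T i, T j, T k] := by
  obtain ⟨π, h0, h1, h2⟩ := exists_perm i j k hij hjk hik
  have h := hT.comp_embedding π.toEmbedding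
  convert h using 1
  funext l
  fin_cases l
  · exact congrArg T h0.symm
  · exact congrArg T h1.symm
  · exact congrArg T h2.symm

theorem step (hCUT : S_CUT) (T : Fin 3 → E2) (hT : AffineIndependent ℝ T) (i j k : Fin 3)
    (hij : i ≠ j) (hjk : j ≠ k) (hik : i ≠ k) (x y z e a b c r : ℝ) (s m : ℕ) (he : 0 < e)
    (hr : r = e * s) (h1 : side T i = r * x) (h2 : side T j = r * y) (h3 : side T k = r * z)
    (hH : 0 < H a b c) (hm : (s : ℝ) ^ 4 * H x y z = ((s ^ 2 * m : ℕ) : ℝ) ^ 2 * H a b c)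
    (htl : Tlb (e * a) (e * b) (e * c) (TriSet T)) : CanCut T (s ^ 2 * m) := by
  obtain ⟨n, hn1, hn2, hn3⟩ := hCUT _ _ _ T hT htl
  rw [H_scale, ← H_perm (side T) i j k hij hjk hik, h1, h2, h3, H_scale, hr] at hn3
  have h4 : (n : ℝ) ^ 2 * (e ^ 4 * H a b c) = ((s ^ 2 * m : ℕ) : ℝ) ^ 2 * (e ^ 4 * H a b c) := by
    rw [hn3]
    linear_combination (e ^ 4) * hm
  have h5 : 0 < e ^ 4 * H a b c := mul_pos (pow_pos he 4) hH
  have h6 : (n : ℝ) ^ 2 = ((s ^ 2 * m : ℕ) : ℝ) ^ 2 := mul_right_cancel₀ h5.ne' h4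
  have h7 : (n : ℝ) = ((s ^ 2 * m : ℕ) : ℝ) :=
    (pow_left_inj₀ (Nat.cast_nonneg _) (Nat.cast_nonneg _) two_ne_zero).mp h6
  have h8 : n = s ^ 2 * m := by exact_mod_cast h7
  rwa [h8] at hn2

theorem fam_not (hCUT : S_CUT) (c1 : S_C1) (c2 : S_C2F) (c3 : S_C3) (c4 : S_C4) (c5 : S_C5) (c6 : S_C6)
    (T : Fin 3 → E2) (hT : AffineIndependent ℝ T) (hF : Fam (side T)) : ¬ SquareOnly T := by
  intro hsq
  obtain ⟨i, j, k, hij, hjk, hik, x, y, z, ⟨a, b, c, ha, hb, hc, hfam⟩, r, hr, h1, h2, h3⟩ := hF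
  have haR : (0 : ℝ) < a := by exact_mod_cast ha
  have hbR : (0 : ℝ) < b := by exact_mod_cast hb
  have hcR : (0 : ℝ) < c := by exact_mod_cast hc
  have dBC : dist (T j) (T k) = r * x := by rw [← side_eq T i j k hij hjk hik]; exact h1
  have dAC : dist (T i) (T k) = r * y := by rw [← side_eq T j i k hij.symm hik hjk]; exact h2
  have dAB : dist (T i) (T j) = r * z := by rw [← side_eq T k i j hik.symm hij hjk.symm]; exact h3
  have hfin : ∀ s m : ℕ, 0 < s → 0 < m → ¬ IsSquare m → CanCut T (s ^ 2 * m) → False := by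
    intro s m hs hm hns hcut
    exact hns (sq_cancel s m hs (hsq _ (Nat.mul_pos (pow_pos hs 2) hm) hcut))
  rcases hfam with ⟨hrel, ⟨hx, hy, hz, hns⟩ | ⟨hx, hy, hz, hns⟩⟩ | ⟨hrel, ⟨hx, hy, hz, hns⟩ |
      ⟨hx, hy, hz, hns⟩ | ⟨hx, hy, hz, hns⟩ | ⟨hx, hy, hz, hns⟩⟩
  · have hrelR : (a : ℝ) ^ 2 + b * c = c ^ 2 := by exact_mod_cast hrel
    have he : 0 < r / c := div_pos hr hcR
    have hrc : r = r / c * c := by field_simp
    refine hfin c (c * (b + c)) hc (by positivity) hns ?_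
    refine step hCUT T hT i j k hij hjk hik x y z (r / c) a b c r c _ he hrc h1 h2 h3
      (H_pos1 _ _ _ hbR hcR hrelR haR) ?_ ?_
    · rw [hx, hy, hz]
      push_cast
      rw [H_K1 _ _ _ hrelR]
      ring
    · rw [← triOf_eq T i j k hij hjk hik]
      apply c1 (r / c) a b c he ha hb hc hrel _ _ _ (ai_of T hT i j k hij hjk hik)
      · rw [dBC, hx]; push_cast; field_simp
      · rw [dAC, hy]; push_cast; field_simp
      · rw [dAB, hz]; push_cast; field_simp
  · have hrelR : (a : ℝ) ^ 2 + b * c = c ^ 2 := by exact_mod_cast hrel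
    have he : 0 < r / c := div_pos hr hcR
    have hrc : r = r / c * c := by field_simp
    refine hfin c ((b + c) * (b + 2 * c)) hc (by positivity) hns ?_
    refine step hCUT T hT i j k hij hjk hik x y z (r / c) a b c r c _ he hrc h1 h2 h3
      (H_pos1 _ _ _ hbR hcR hrelR haR) ?_ ?_
    · rw [hx, hy, hz]
      push_cast
      rw [H_K2 _ _ _ hrelR]
      ring
    · rw [← triOf_eq T i j k hij hjk hik]
      apply c2 (r / c) a b c he ha hb hc hrel _ _ _ (ai_of T hT i j k hij hjk hik)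
      · rw [dBC, hx]; push_cast; field_simp
      · rw [dAC, hy]; push_cast; field_simp
      · rw [dAB, hz]; push_cast; field_simp
  · have hrelR : (c : ℝ) ^ 2 = a ^ 2 + a * b + b ^ 2 := by exact_mod_cast hrel
    have hs : 0 < 3 * (a + b) * b := by positivity
    have hsR : (0 : ℝ) < 3 * (a + b) * b := by positivity
    have he : 0 < r / (3 * (a + b) * b) := div_pos hr hsR
    refine hfin (3 * (a + b) * b) (3 * (a + b) * (2 * a + b)) hs (by positivity) hns ?_
    refine step hCUT T hT i j k hij hjk hik x y z (r / (3 * (a + b) * b)) a b c r _ _ he ?_ h1 h2 h3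
      (H_pos2 _ _ _ haR hbR hrelR) ?_ ?_
    · push_cast; field_simp
    · rw [hx, hy, hz]
      push_cast
      rw [H_K3 _ _ _ hrelR]
      ring
    · rw [← triOf_eq T i j k hij hjk hik]
      apply c3 (r / (3 * (a + b) * b)) a b c he ha hb hc hrel _ rfl _ _ _ (ai_of T hT i j k hij hjk hik)
      · rw [dBC, hx]; push_cast; field_simp
      · rw [dAC, hy]; push_cast; field_simp
      · rw [dAB, hz]; push_cast; field_simp
  · have hrelR : (c : ℝ) ^ 2 = a ^ 2 + a * b + b ^ 2 := by exact_mod_cast hrel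
    have hs : 0 < 3 * (a + b) * b := by positivity
    have hsR : (0 : ℝ) < 3 * (a + b) * b := by positivity
    have hsR2 : (0 : ℝ) < 3 * (a + b) * a * b := by positivity
    have he : 0 < r / (3 * (a + b) * a * b) := div_pos hr hsR2
    refine hfin (3 * (a + b) * b) (a * (a + b)) hs (by positivity) hns ?_
    have key : CanCut T ((3 * (a + b) * b) ^ 2 * (a * (a + b))) := by
      obtain ⟨n, hn1, hn2, hn3⟩ := hCUT (r / (3 * (a + b) * a * b) * a) (r / (3 * (a + b) * a * b) * b)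
        (r / (3 * (a + b) * a * b) * c) T hT (by
          rw [← triOf_eq T i j k hij hjk hik]
          apply c4 (r / (3 * (a + b) * a * b)) a b c he ha hb hc hrel _ rfl _ _ _ (ai_of T hT i j k hij hjk hik)
          · rw [dBC, hx]; push_cast; field_simp
          · rw [dAC, hy]; push_cast; field_simp
          · rw [dAB, hz]; push_cast; field_simp)
      rw [H_scale, ← H_perm (side T) i j k hij hjk hik, h1, h2, h3, H_scale, hx, hy, hz] at hn3
      push_cast at hn3
      set e : ℝ := r / (3 * (a + b) * a * b) with hedef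
      have hre : r = e * (3 * (a + b) * a * b) := by rw [hedef]; field_simp
      have hk4 := H_K4 a b c hrelR
      have hHp := H_pos2 _ _ _ haR hbR hrelR
      have h4 : ((n : ℝ)) ^ 2 * (e ^ 4 * H a b c) =
          ((3 * (a + b) * b) ^ 2 * (a * (a + b))) ^ 2 * (e ^ 4 * H a b c) := by
        rw [hn3, hre]
        linear_combination (e ^ 4 * (3 * (a + b) * b) ^ 4 * (a : ℝ) ^ 2) * hk4
      have h5 : 0 < e ^ 4 * H a b c := mul_pos (pow_pos he 4) hHp
      have h6 := mul_right_cancel₀ h5.ne' h4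
      have h7 : (n : ℝ) = (3 * (a + b) * b) ^ 2 * (a * (a + b)) :=
        (pow_left_inj₀ (Nat.cast_nonneg _) (by positivity) two_ne_zero).mp h6
      have h8 : n = (3 * (a + b) * b) ^ 2 * (a * (a + b)) := by exact_mod_cast h7
      rwa [h8] at hn2
    exact key
  · have hrelR : (c : ℝ) ^ 2 = a ^ 2 + a * b + b ^ 2 := by exact_mod_cast hrel
    have hs : 0 < c * (3 * (a + b) * b) := by positivity
    have hsR : (0 : ℝ) < c * (3 * (a + b) * b) := by positivity
    have he : 0 < r / (c * (3 * (a + b) * b)) := div_pos hr hsR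
    refine hfin (c * (3 * (a + b) * b)) ((a + b) * (2 * a + b)) hs (by positivity) hns ?_
    refine step hCUT T hT i j k hij hjk hik x y z (r / (c * (3 * (a + b) * b))) a b c r _ _ he ?_ h1 h2 h3
      (H_pos2 _ _ _ haR hbR hrelR) ?_ ?_
    · push_cast; field_simp
    · rw [hx, hy, hz]
      push_cast
      rw [H_K5 _ _ _ hrelR]
      ring
    · rw [← triOf_eq T i j k hij hjk hik]
      apply c5 (r / (c * (3 * (a + b) * b))) a b c he ha hb hc hrel _ rfl _ _ _ (ai_of T hT i j k hij hjk hik)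
      · rw [dBC, hx]; push_cast; field_simp
      · rw [dAC, hy]; push_cast; field_simp
      · rw [dAB, hz]; push_cast; field_simp
  · have hrelR : (c : ℝ) ^ 2 = a ^ 2 + a * b + b ^ 2 := by exact_mod_cast hrel
    have hs : 0 < 3 * (a + b) * b := by positivity
    have hsR : (0 : ℝ) < 3 * (a + b) * b := by positivity
    have he : 0 < r / (3 * (a + b) * b) := div_pos hr hsR
    refine hfin (3 * (a + b) * b) ((a + 2 * b) * (2 * a + b)) hs (by positivity) hns ?_
    refine step hCUT T hT i j k hij hjk hik x y z (r / (3 * (a + b) * b)) a b c r _ _ he ?_ h1 h2 h3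
      (H_pos2 _ _ _ haR hbR hrelR) ?_ ?_
    · push_cast; field_simp
    · rw [hx, hy, hz]
      push_cast
      rw [H_K6 _ _ _ hrelR]
      ring
    · rw [← triOf_eq T i k j hik hjk.symm hij]
      apply c6 (r / (3 * (a + b) * b)) a b c 1 he ha hb hc one_pos hrel (3 * (a + b) * b) (by push_cast; ring) _ _ _
        (ai_of T hT i k j hik hjk.symm hij)
      · rw [dAC, hy]; push_cast; field_simp
      · rw [dist_comm, dBC, hx]; push_cast; field_simp
      · rw [dAB, hz]; push_cast; field_simp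

end Q16.SQ
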