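import Pool.Agent.Q16.SQ.Stm2

set_option autoImplicit false

noncomputable section
open scoped BigOperators
open Pool.Agent.Helper549.Tri

namespace Q16.SQ

/-- job SH4: side ratios and area of the shape K4 -/
theorem t_SH4 : S_SH4 := by
  intro N ℓ θ S A κ β h hκ
  have hl := h.lpos
  have hS := h.Spos
  have ht := h.tpos
  have hts := h.tsum
  have hAs := h.Asum
  have hA0 : A 0 = 2 * θ 0 + θ 1 := by
    rw [h.angles 0, hκ]
    simp [K4, Fin.sum_univ_three]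
  have hA1 : A 1 = θ 0 + θ 1 := by
    rw [h.angles 1, hκ]
    simp [K4, Fin.sum_univ_three]
  have hA2 : A 2 = θ 1 := by
    rw [h.angles 2, hκ]
    simp [K4, Fin.sum_univ_three]
  rw [hA0, hA1, hA2] at hAs
  have hb : θ 1 = Real.pi / 3 - θ 0 := by linarith
  have hc : θ 2 = Real.pi - Real.pi / 3 := by linarith
  have hs2 : Real.sin (θ 2) = Real.sqrt 3 / 2 := by
    rw [hc, Real.sin_pi_sub, Real.sin_pi_div_three]
  have hs1 : Real.sin (θ 1) = Real.sqrt 3 / 2 * Real.cos (θ 0) - 1 / 2 * Real.sin (θ 0) := by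
    rw [hb, Real.sin_sub, Real.sin_pi_div_three, Real.cos_pi_div_three]
  have hsA0 : Real.sin (A 0) = Real.sin (θ 0) + Real.sin (θ 1) := by
    rw [hs1, hA0, show 2 * θ 0 + θ 1 = θ 0 + Real.pi / 3 by linarith, Real.sin_add,
      Real.sin_pi_div_three, Real.cos_pi_div_three]
    ring
  have hsA1 : Real.sin (A 1) = Real.sin (θ 2) := by
    rw [hA1, hs2, show θ 0 + θ 1 = Real.pi / 3 by linarith, Real.sin_pi_div_three]
  have hsA2 : Real.sin (A 2) = Real.sin (θ 1) := by rw [hA2]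
  have hp := Real.pi_pos
  have p1 : 0 < Real.sin (θ 1) := Real.sin_pos_of_pos_of_lt_pi (ht 1) (by linarith [ht 0, ht 2])
  have p0 : 0 < Real.sin (θ 0) := Real.sin_pos_of_pos_of_lt_pi (ht 0) (by linarith [ht 1, ht 2])
  have p2 : 0 < Real.sin (θ 2) := Real.sin_pos_of_pos_of_lt_pi (ht 2) (by linarith [ht 1, ht 0])
  have q01 := h.sinet 0 1
  have q21 := h.sinet 2 1
  have q02 := h.sinet 0 2
  have r02 := h.sineT 0 2
  have r12 := h.sineT 1 2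
  have har := h.area
  rw [hsA0, hsA2] at r02
  rw [hsA1, hsA2] at r12
  rw [hsA2] at har
  have l0 := hl 0
  have l1 := hl 1
  have l2 := hl 2
  refine ⟨?_, S 2 / ℓ 1, div_pos (hS 2) (hl 1), ?_, ?_, ?_, ?_⟩
  · have h3 : Real.sin (θ 0) ^ 2 + Real.sin (θ 0) * Real.sin (θ 1) + Real.sin (θ 1) ^ 2 =
        Real.sin (θ 2) ^ 2 := by
      rw [hs1, hs2]
      have e1 := Real.sin_sq_add_cos_sq (θ 0)
      have e2 : Real.sqrt 3 ^ 2 = 3 := Real.sq_sqrt (by norm_num)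
      linear_combination (3 / 4) * e1 + (Real.cos (θ 0) ^ 2 / 4 - 1 / 4) * e2
    have hne : Real.sin (θ 2) ^ 2 ≠ 0 := pow_ne_zero _ p2.ne'
    refine mul_right_cancel₀ hne ?_
    have e0 : ℓ 0 * Real.sin (θ 2) = ℓ 2 * Real.sin (θ 0) := q02
    have e1 : ℓ 1 * Real.sin (θ 2) = ℓ 2 * Real.sin (θ 1) := q21.symm
    calc ℓ 2 ^ 2 * Real.sin (θ 2) ^ 2
        = ℓ 2 ^ 2 * (Real.sin (θ 0) ^ 2 + Real.sin (θ 0) * Real.sin (θ 1) +
            Real.sin (θ 1) ^ 2) := by rw [h3]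
      _ = (ℓ 2 * Real.sin (θ 0)) ^ 2 + (ℓ 2 * Real.sin (θ 0)) * (ℓ 2 * Real.sin (θ 1)) +
            (ℓ 2 * Real.sin (θ 1)) ^ 2 := by ring
      _ = (ℓ 0 ^ 2 + ℓ 0 * ℓ 1 + ℓ 1 ^ 2) * Real.sin (θ 2) ^ 2 := by
          rw [← e0, ← e1]; ring
  · refine mul_right_cancel₀ p1.ne' ?_
    rw [r02, div_mul_eq_mul_div, div_mul_eq_mul_div, eq_div_iff l1.ne']
    linear_combination (-S 2) * q01
  · refine mul_right_cancel₀ p1.ne' ?_
    rw [r12, div_mul_eq_mul_div, div_mul_eq_mul_div, eq_div_iff l1.ne']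
    linear_combination (-S 2) * q21
  · rw [div_mul_cancel₀ _ l1.ne']
  · have k0 : S 0 * ℓ 1 = S 2 * (ℓ 0 + ℓ 1) := by
      refine mul_right_cancel₀ p1.ne' ?_
      linear_combination ℓ 1 * r02 - S 2 * q01
    have k1 : S 1 * ℓ 1 = S 2 * ℓ 2 := by
      refine mul_right_cancel₀ p1.ne' ?_
      linear_combination ℓ 1 * r12 - S 2 * q21
    rw [div_pow, div_mul_eq_mul_div, eq_div_iff (pow_ne_zero _ l1.ne')]
    refine mul_right_cancel₀ (mul_pos l1 p2).ne' ?_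
    have e5 : (N : ℝ) * ℓ 0 * ℓ 1 ^ 2 * (ℓ 1 * Real.sin (θ 2)) =
        ((N : ℝ) * (ℓ 0 * ℓ 1 * Real.sin (θ 2))) * ℓ 1 ^ 2 := by ring
    rw [e5, har]
    calc S 0 * S 1 * Real.sin (θ 1) * ℓ 1 ^ 2
        = (S 0 * ℓ 1) * (S 1 * ℓ 1) * Real.sin (θ 1) := by ring
      _ = S 2 ^ 2 * (ℓ 0 + ℓ 1) * (ℓ 2 * Real.sin (θ 1)) := by rw [k0, k1]; ring
      _ = S 2 ^ 2 * (ℓ 0 + ℓ 1) * (ℓ 1 * Real.sin (θ 2)) := by rw [q21]

end Q16.SQ
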