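import Mathlib
import Pool.Agent.Q16.SQ.Final2
import Pool.Agent.Q16.SQ.Final3
import Pool.Agent.Q124.SQ_IDENT
import Pool.Agent.Q150.SQ_MATJ
import Pool.Agent.Q90.SQ_RIGHT
import Pool.Agent.Q135.SQ_SIMC
import Pool.Agent.Q76.SQ_ENUM
import Pool.Agent.Q154.SQ_ISOM
import Pool.Agent.Q224.SQ.SPLIT
import Pool.Agent.Q150.SQ_KSQ
import Pool.Agent.Q224.SQ.ISO2
import Pool.Agent.Q150.SQ_RCUT
import Pool.Agent.Q252.SQ_SH1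
import Pool.Agent.Q103.SQ_SH2
import Pool.Agent.Q178.SQ_SH3
import Pool.Agent.Q16.SQ.SH4
import Pool.Agent.Q223.SQ_SH5
import Pool.Agent.Q187.SQ_SH6
import Pool.Agent.Q44.SQ.Corner2
import Pool.Agent.Q94.SQ_F1
import Pool.Agent.Q241.SQ_F2
import Pool.Agent.Q154.SQ_F3
import Pool.Agent.Q224.SQ.F4
import Pool.Agent.Q224.SQ.F5
import Pool.Agent.Q222.SQ_GLUE
import Pool.Agent.Q39.SQ_TRIK
import Pool.Agent.Q214.SQ.Diag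
import Pool.Agent.Q223.SQ_PARA
import Pool.Agent.Q187.SQ_TRAP
import Pool.Agent.Q94.SQ_C2F
import Pool.Agent.Q153.SQ_C3
import Pool.Agent.Q153.SQ_C5
import Pool.Agent.Q142.SQ_C4
set_option autoImplicit false
noncomputable section
open scoped BigOperators
open Pool.Agent.Helper549.Tri

namespace Q16.SQ

theorem j_IDENT : S_IDENT := Q16.SQ.t_IDENT
theorem j_MATJ : S_MATJ := Pool.Agent.Q150.SQM.t_MATJ
theorem j_RIGHT : S_RIGHT := Pool.Agent.Q90.SQR.t_RIGHT j_MATJ j_IDENT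
theorem j_SIMC : S_SIMC := Q16.SQ.t_SIMC j_MATJ j_IDENT
theorem j_ENUM : S_ENUM := Q76.SQE.t_ENUM
theorem j_ISOM : S_ISOM := Q16.SQ.t_ISOM
theorem j_SPLIT : S_SPLIT := Pool.Agent.Q224.SQ.t_SPLIT
theorem j_KSQ : S_KSQ := Pool.Agent.Q150.SQK.t_KSQ
theorem j_ISO2 : S_ISO2 := Pool.Agent.Q224.SQ.t_ISO2 j_ISOM j_SPLIT
theorem j_RCUT : S_RCUT := Pool.Agent.Q150.SQR.t_RCUT j_ISOM j_SPLIT j_KSQ
theorem j_SH1 : S_SH1 := Pool.Agent.Q252.SQ.t_SH1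
theorem j_SH2 : S_SH2 := Q16.SQ.t_SH2
theorem j_SH3 : S_SH3 := Pool.Agent.Q178.SQ.t_SH3
theorem j_SH5 : S_SH5 := Pool.Agent.Q223.SQ.t_SH5
theorem j_SH6 : S_SH6 := Q16.SQ.SH6_187.t_SH6
theorem j_CORNER2 : S_CORNER2 := Pool.Agent.Q44.SQ.t_CORNER2
theorem j_F1 : S_F1 := Q16.SQ.t_F1 j_SH1
theorem j_F2 : S_F2 := Pool.Agent.Q241.SQ.t_F2 j_SH2
theorem j_F3 : S_F3 := Q16.SQ.t_F3 j_SH3
theorem j_F5 : S_F5 := Pool.Agent.Q224.SQ.t_F5 j_SH5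
theorem j_GLUE : S_GLUE := Pool.Agent.Q222.SQ_GLUE.t_GLUE
theorem j_TRIK : S_TRIK := Pool.Agent.Q39.SQ_TRIK.t_TRIK j_KSQ
theorem j_DIAG : S_DIAG := Q214.SQ.t_DIAG
theorem j_PARA : S_PARA := Pool.Agent.Q223.SQP.t_PARA

end Q16.SQ
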