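import Mathlib
import Pool.Agent.Q16.SQ.Final2
import Pool.Agent.Helper549.Tri2.Main
set_option autoImplicit false
noncomputable section
open scoped BigOperators
open Pool.Agent.Helper549.Tri

namespace Q16.SQ

/-- a dissection with an irrational piece angle gives the numerical data -/
theorem data_of_cut (hCor : S_CORNER2) {T : Fin 3 → E2} (hT : AffineIndependent ℝ T) {N : ℕ}
    (hN : ¬ IsSquare N) (P : Fin N → Fin 3 → E2) (hc : Pool.Agent.Helper549.Tri2.Main.IsCut T N P)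
    (hirr : ¬ Pool.Agent.Helper549.Tri2.Main.RatAngles P) :
    ∃ (ρ : Equiv.Perm (Fin 3)) (ℓ θ : Fin 3 → ℝ) (κ β : Fin 3 → Fin 3 → ℕ) (P : Fin 3 → ℕ),
      Data N ℓ θ (fun k => side T (ρ k)) (fun k => angle T (ρ k)) κ β ∧ C2 κ β ∧
      (P = ![1, 1, 1] ∨ P = ![2, 0, 1] ∨ P = ![3, 0, 1] ∨ P = ![2, 2, 0] ∨ P = ![3, 2, 0] ∨
        P = ![3, 3, 0] ∨ P = ![0, 0, 3]) ∧ (∀ k, ∑ j, κ j k = P k) := by
  have h2 : 2 ≤ N := by
    by_contra hcon
    have h3 : N = 0 ∨ N = 1 := by omega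
    rcases h3 with rfl | rfl
    · exact hN ⟨0, rfl⟩
    · exact hN ⟨1, rfl⟩
  have _ : NeZero N := ⟨by omega⟩
  have hdist : ∀ i, ∃ σ : Equiv.Perm (Fin 3), ∀ k l,
      dist (P i k) (P i l) = dist (P 0 (σ k)) (P 0 (σ l)) := by
    intro i
    obtain ⟨f, hf⟩ := hc.cong 0 i
    exact Setup.cong_perm (P 0) (P i) (hc.indep 0) (hc.indep i) f hf
  obtain ⟨TC, t, τ, ℓ, θ, ρ, h, hlen, hang, hTC, hθ⟩ :=
    Pool.Agent.Helper549.Tri2.Main.setup2 T P hT hc.indep hdist hc.union hc.disj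
  have hlenT : len TC = fun k => side T (ρ k) := by
    funext k
    rw [hTC k, side_perm]
  have hd : ∀ k, dist (TC (k + 2)) (TC (k + 1)) = dist (T (ρ (k + 2))) (T (ρ (k + 1))) := by
    intro k
    have := hTC k
    unfold len sd at this
    rw [← dist_eq_norm] at this
    rw [this, dist_comm]
  have hangT : ang TC = fun k => angle T (ρ k) := by
    funext k
    rw [← angle_perm' T ρ k]
    unfold ang
    have e1 : ∀ k : Fin 3, k + 2 + 2 = k + 1 ∧ k + 2 + 1 = k ∧ k + 1 + 1 = k + 2 ∧ k + 1 + 2 = k := by decide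
    obtain ⟨a1, a2, a3, a4⟩ := e1 k
    have d0 := hd k
    have d1 := hd (k + 1)
    have d2 := hd (k + 2)
    rw [a3, a4] at d1
    rw [a1, a2] at d2
    refine Setup.angle_of_dist _ _ _ _ _ _ d2 ?_ ?_
    · rw [dist_comm, d1, dist_comm]
    · rw [dist_comm, d0, dist_comm]
  have hrat : ¬ ∀ k, ∃ q : ℚ, θ k = q * Real.pi := by
    intro hr
    apply hirr
    intro i k
    obtain ⟨σ, hσ⟩ := hdist i
    obtain ⟨q, hq⟩ := hr (σ k)
    exact ⟨q, by rw [Pool.Agent.Helper549.Tri2.Main.angle_perm (P 0) (P i) σ hσ k, ← hθ, hq]⟩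
  have hDat := DataDis.data_of_dis h2 h τ ℓ θ hlen hang hrat
  obtain ⟨σ, P', hP', hc'⟩ := ClassDis.class_of_dis (by omega) h τ θ hang hrat
  rw [hlenT, hangT] at hDat
  refine ⟨ρ, _, _, _, _, P', hDat.perm_types σ, (hCor h τ).perm_types σ, hc', ?_⟩
  intro k
  exact hP' k

theorem tri_facts {T : Fin 3 → E2} (hT : AffineIndependent ℝ T) :
    (∀ k, 0 < angle T k) ∧ angle T 0 + angle T 1 + angle T 2 = Real.pi ∧
      (∀ i j, side T i * Real.sin (angle T j) = side T j * Real.sin (angle T i)) := by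
  obtain ⟨ρ, hρ⟩ := Setup.orient T hT
  set v : Fin 3 → ℂ := fun k => Setup.eC (T (ρ k)) with hv
  have hlen : ∀ k, len v k = side T (ρ k) := by
    intro k
    show ‖Setup.eC (T (ρ (k + 2))) - Setup.eC (T (ρ (k + 1)))‖ = _
    rw [← dist_eq_norm, Setup.eC.dist_map, dist_comm, side_perm]
  have hang : ∀ k, ang v k = angle T (ρ k) := by
    intro k
    rw [← angle_perm' T ρ k]
    exact Setup.angle_of_dist _ _ _ _ _ _ (Setup.eC.dist_map _ _) (Setup.eC.dist_map _ _)
      (Setup.eC.dist_map _ _)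
  refine ⟨?_, ?_, ?_⟩
  · intro k
    have := Angles.ang_pos v hρ (ρ.symm k)
    rw [hang, Equiv.apply_symm_apply] at this
    exact this
  · have h1 := Angles.ang_sum v hρ
    rw [hang, hang, hang] at h1
    have h2 := Equiv.sum_comp ρ (angle T)
    rw [Fin.sum_univ_three, Fin.sum_univ_three] at h2
    rw [← h2]; exact h1
  · intro i j
    have := Angles.sine_law v hρ (ρ.symm i) (ρ.symm j)
    rw [hlen, hlen, hang, hang, Equiv.apply_symm_apply, Equiv.apply_symm_apply] at this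
    exact this

end Q16.SQ
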