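import Mathlib
import Pool.Agent.Q16.SQ.Stm5
import Pool.Agent.Q16.SQ.RatT
set_option autoImplicit false
noncomputable section
open scoped BigOperators
open Pool.Agent.Helper549.Tri

namespace Q16.SQ

theorem perm3_of (i j k : Fin 3) (hij : i ≠ j) (hjk : j ≠ k) (hik : i ≠ k) :
    ∃ σ : Equiv.Perm (Fin 3), σ 0 = i ∧ σ 1 = j ∧ σ 2 = k := exists_perm i j k hij hjk hik

theorem iso_false0 {N : ℕ} {ℓ θ S A : Fin 3 → ℝ} {κ β : Fin 3 → Fin 3 → ℕ} (h : Data0 N ℓ θ S A κ β)
    (hsc : ∀ i j, i ≠ j → A i ≠ A j) (hi : IsoK κ) : False := by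
  obtain ⟨i, j, hij, hk⟩ := hi
  apply hsc i j hij
  rw [h.angles, h.angles, hk]

theorem rat_core (hRCA : S_RCA) (hENUM0 : S_ENUM0) (hPERM0 : S_PERM0) (hD6 : S_D6)
    {N : ℕ} (hN : ¬ IsSquare N) {ℓ θ S A : Fin 3 → ℝ} {κ β : Fin 3 → Fin 3 → ℕ}
    (h : Data0 N ℓ θ S A κ β) (hsc : ∀ i j, i ≠ j → A i ≠ A j) (n : ℕ) (a : Fin 3 → ℕ) (hn : 0 < n)
    (ha : ∀ k, θ k = Real.pi * a k / n) (hout : NTout n a (fun k => ∑ j, κ j k)) :
    (∃ i j, A i = Real.pi / 6 ∧ A j = Real.pi / 3) ∨ RightX S A := by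
  have hn' : (0 : ℝ) < n := by exact_mod_cast hn
  have ident : ∀ (m : ℕ) (x : ℕ) (d : ℕ), 0 < d → d * x = m * n → Real.pi * x / n = m * Real.pi / d := by
    intro m x d hd hx
    have h1 : (d : ℝ) * x = m * n := by exact_mod_cast hx
    have hd' : (0 : ℝ) < d := by exact_mod_cast hd
    rw [div_eq_div_iff hn'.ne' hd'.ne']
    linear_combination Real.pi * h1
  rcases hout with h1 | ⟨d, hd, h2⟩ | ⟨i, j, k, hij, hjk, hik, hi, hj, hk, hak⟩ |
    ⟨i, j, k, hij, hjk, hik, hi, hj, hk⟩ | ⟨i, j, k, hij, hjk, hik, hi, hj, hk, hak⟩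
  · exfalso
    obtain ⟨π, hπ⟩ := (hENUM0 κ h.kpos).1 (by
      intro k
      have h3 := h1 k
      fin_cases k <;> exact h3)
    exact (hRCA (hPERM0 h π 1) hN).1 hπ
  · left
    have hdpos : 0 < d := by omega
    refine hD6 A h.Apos h.Asum hsc d hd ?_
    intro j
    have h3 : ∀ k, ∃ m : ℕ, (κ j k : ℝ) * θ k = m * Real.pi / d := by
      intro k
      rcases Nat.eq_zero_or_pos (κ j k) with h0 | h0
      · exact ⟨0, by rw [h0]; simp⟩
      · obtain ⟨m, hm⟩ := h2 k (lt_of_lt_of_le h0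
          (Finset.single_le_sum (f := fun j => κ j k) (fun _ _ => Nat.zero_le _) (Finset.mem_univ j)))
        refine ⟨κ j k * m, ?_⟩
        rw [ha k, ident m (a k) d hdpos hm]
        push_cast
        ring
    choose m hm using h3
    refine ⟨∑ k, m k, ?_⟩
    rw [h.angles j, Finset.sum_congr rfl fun k _ => hm k]
    push_cast
    rw [Finset.sum_mul, Finset.sum_div]
  · obtain ⟨σ, h0, h1, h2⟩ := exists_perm i j k hij hjk hik
    have hD := hPERM0 h 1 σ
    rcases (hENUM0 (fun j k => κ j (σ k)) hD.kpos).2.1 (by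
      intro l
      fin_cases l
      · show ∑ j, κ j (σ 0) = 2
        rw [h0]; exact hi
      · show ∑ j, κ j (σ 1) = 2
        rw [h1]; exact hj
      · show ∑ j, κ j (σ 2) = 0
        rw [h2]; exact hk) with hiso | ⟨π, hπ⟩
    · exact (iso_false0 hD hsc hiso).elim
    · right
      have hD2 := hPERM0 h π σ
      have hr := (hRCA hD2 hN).2.1 hπ (by
        show θ (σ 2) = _
        rw [h2, ha k, ident 1 (a k) 2 two_pos (by linarith)]
        simp)
      obtain ⟨r1, p, q, hp, hq, r2, r3, r4⟩ := hr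
      apply RightX.perm π
      have hl : 0 < ℓ (σ 2) := hD2.lpos 2
      have hp' : (0 : ℝ) < p := by exact_mod_cast hp
      have hq' : (0 : ℝ) < q := by exact_mod_cast hq
      refine ⟨2, 0, 1, by decide, by decide, by decide, r1, ⟨(p / q : ℚ), ?_⟩, ?_⟩
      · simp only at r2 r3 ⊢
        rw [r2, r3]
        push_cast
        field_simp
      · simp only at r2 r4 ⊢
        rw [r2, r4]
        have h5 : Real.sqrt N * ℓ (σ 2) / (p * ℓ (σ 2)) = Real.sqrt N / p := by
          field_simp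
        rw [h5]
        have h6 : Irrational (Real.sqrt N) := irrational_sqrt_natCast_iff.mpr hN
        exact h6.div_natCast hp.ne'
  · exfalso
    obtain ⟨σ, h0, h1, h2⟩ := exists_perm i j k hij hjk hik
    have hD := hPERM0 h 1 σ
    exact iso_false0 hD hsc ((hENUM0 (fun j k => κ j (σ k)) hD.kpos).2.2.1 (by
      intro l
      fin_cases l
      · show ∑ j, κ j (σ 0) = 2
        rw [h0]; exact hi
      · show ∑ j, κ j (σ 1) = 1
        rw [h1]; exact hj
      · show ∑ j, κ j (σ 2) = 0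
        rw [h2]; exact hk))
  · exfalso
    obtain ⟨σ, h0, h1, h2⟩ := exists_perm i j k hij hjk hik
    have hD := hPERM0 h 1 σ
    rcases (hENUM0 (fun j k => κ j (σ k)) hD.kpos).2.2.2 (by
      intro l
      fin_cases l
      · show ∑ j, κ j (σ 0) = 3
        rw [h0]; exact hi
      · show ∑ j, κ j (σ 1) = 1
        rw [h1]; exact hj
      · show ∑ j, κ j (σ 2) = 0
        rw [h2]; exact hk) with hiso | ⟨π, hπ⟩
    · exact (iso_false0 hD hsc hiso).elim
    · have hD2 := hPERM0 h π σ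
      rcases hak with ⟨b1, b2, b3⟩ | ⟨b1, b2, b3⟩
      · refine (hRCA hD2 hN).2.2 hπ ?_ (Or.inl ⟨?_, ?_⟩)
        · show θ (σ 2) = 2 * θ (σ 0)
          rw [h2, h0, ha k, ha i, ident 2 (a k) 10 (by norm_num) b3, ident 1 (a i) 10 (by norm_num) (by linarith)]
          push_cast; ring
        · show θ (σ 0) = _
          rw [h0, ha i, ident 1 (a i) 10 (by norm_num) (by linarith)]
          push_cast; ring
        · show θ (σ 1) = _
          rw [h1, ha j, ident 7 (a j) 10 (by norm_num) b2]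
          push_cast; ring
      · refine (hRCA hD2 hN).2.2 hπ ?_ (Or.inr ⟨?_, ?_⟩)
        · show θ (σ 2) = 2 * θ (σ 0)
          rw [h2, h0, ha k, ha i, ident 6 (a k) 10 (by norm_num) b3, ident 3 (a i) 10 (by norm_num) b1]
          push_cast; ring
        · show θ (σ 0) = _
          rw [h0, ha i, ident 3 (a i) 10 (by norm_num) b1]
          push_cast; ring
        · show θ (σ 1) = _
          rw [h1, ha j, ident 1 (a j) 10 (by norm_num) (by linarith)]
          push_cast; ring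

end Q16.SQ
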