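import Mathlib
import Pool.Agent.Q16.SQ.All
import Pool.Agent.Q192.SQ_F6
import Pool.Agent.Q53.SQ.Star
import Pool.Agent.Q53.SQ.C1
import Pool.Agent.Q40.SQ_C6
import Pool.Agent.Q194.SQ_ROW
import Pool.Agent.Q135.SQ_EQU
import Pool.Agent.Q162.SQ_CUT
set_option autoImplicit false
noncomputable section
open scoped BigOperators
open Pool.Agent.Helper549.Tri

namespace Q16.SQ

theorem full0 (h6 : S_F6) (c1 : S_C1) (c6 : S_C6) (hE : S_EQU) (hCUT : S_CUT)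
    (T : Fin 3 → E2) (hT : AffineIndependent ℝ T)
    (hirr : ∃ i, ¬ ∃ q : ℚ, angle T i = q * Real.pi) :
    SquareOnly T ↔ (∀ i j, i ≠ j → side T i ≠ side T j) ∧ ¬ RightX (side T) (angle T) ∧ ¬ Fam (side T) := by
  by_cases hF : Fam (side T)
  · have h1 : ¬ SquareOnly T := fam_not hCUT c1 (Q16.SQ.t_C2F c1 j_GLUE j_TRIK j_SPLIT)
      (Pool.Agent.Q153.SQC3.t_C3 c6 j_GLUE j_TRIK j_SPLIT)
      (Pool.Agent.Q142.SQC4.t_C4 hE j_GLUE j_TRIK j_SPLIT)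
      (Pool.Agent.Q153.SQC5.t_C5 c6 j_GLUE j_TRIK j_SPLIT) c6 T hT hF
    constructor
    · intro h; exact absurd h h1
    · intro h; exact absurd hF h.2.2
  · have h2 := main2 j_SIMC j_RIGHT j_ENUM j_F1 j_F2 j_F3 (Pool.Agent.Q224.SQ.t_F4 Q16.SQ.t_SH4) j_F5 h6
      j_CORNER2 j_ISO2 j_RCUT T hT hirr hF
    rw [h2]
    constructor
    · rintro ⟨a, b⟩; exact ⟨a, b, hF⟩
    · rintro ⟨a, b, -⟩; exact ⟨a, b⟩

theorem j_F6 : S_F6 := Pool.Agent.Q192.SQF6.t_F6 j_SH6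
theorem j_STAR : S_STAR := Pool.Agent.Q53.SQ.t_STAR
theorem j_C1 : S_C1 := Pool.Agent.Q53.SQ.t_C1 j_GLUE j_TRIK j_PARA j_DIAG j_STAR j_SPLIT
theorem j_ROW : S_ROW := Q16.SQ.T194.t_ROW j_GLUE j_TRIK j_PARA
theorem j_TRAP : S_TRAP := Q16.SQ.T187.t_TRAP j_ROW j_GLUE
theorem j_EQU : S_EQU := Q16.SQ.t_EQU j_TRAP j_GLUE
theorem j_C6 : S_C6 := Pool.Agent.Q40.SQ.t_C6 j_EQU j_GLUE j_TRIK j_STAR j_SPLIT
theorem j_CUT : S_CUT := Q16.SQ.t_CUT j_ISOM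

theorem full (T : Fin 3 → E2) (hT : AffineIndependent ℝ T)
    (hirr : ∃ i, ¬ ∃ q : ℚ, angle T i = q * Real.pi) :
    SquareOnly T ↔ (∀ i j, i ≠ j → side T i ≠ side T j) ∧ ¬ RightX (side T) (angle T) ∧ ¬ Fam (side T) :=
  full0 j_F6 j_C1 j_C6 j_EQU j_CUT T hT hirr

end Q16.SQ
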