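import Mathlib
import Pool.Agent.Q16.SQ.RatT
set_option autoImplicit false
noncomputable section
open scoped BigOperators
open Pool.Agent.Helper549.Tri

namespace Q16.SQ

/-- JOB RX. A i = pi/2, side j = q side k. With tri_facts (in RatT): A j + A k = pi/2, q = tan (A j), cos (2 A j) = (1-q^2)/(1+q^2)
is rational and 2 A j is a rational multiple of pi, so by Niven (Mathlib niven) cos (2 A j) is 0, 1/2, -1/2 (or 1, -1, impossible);
0 gives q = 1 (not scalene), the others q^2 = 1/3 or q^2 = 3, impossible for rational q. -/
def S_RX : Prop := ∀ T : Fin 3 → E2, AffineIndependent ℝ T → (∀ i j, i ≠ j → side T i ≠ side T j) →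
  (∀ i, ∃ q : ℚ, angle T i = q * Real.pi) → ¬ RightX (side T) (angle T)

/-- JOB FX. The sides are proportional to integers, so every cos (angle T i) is rational (law of cosines,
EuclideanGeometry.dist_sq_eq_dist_sq_add_dist_sq_sub_two_mul_dist_mul_dist_mul_cos_angle), by Niven (niven_angle_eq) every angle is at least
pi/3 (0 and pi are excluded by tri_facts), the sum is pi, so all angles are pi/3 and all sides are equal (tri_facts), against scalene. -/
def S_FX : Prop := ∀ T : Fin 3 → E2, AffineIndependent ℝ T → (∀ i j, i ≠ j → side T i ≠ side T j) →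
  (∀ i, ∃ q : ℚ, angle T i = q * Real.pi) → ¬ Fam (side T)

end Q16.SQ
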