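import Mathlib
import Pool.Agent.Q16.SQ.Core0
import Pool.Agent.Q16.SQ.Stm4
import Pool.Agent.Q16.SQ.Full
set_option autoImplicit false
noncomputable section
open scoped BigOperators
open Pool.Agent.Helper549.Tri

namespace Q16.SQ

theorem rat_cut (hRCA : S_RCA) (hENUM0 : S_ENUM0) (hPERM0 : S_PERM0) (hD6 : S_D6) (hDATA0 : S_DATA0)
    (hRATN : S_RATN) (hCONJ : S_CONJ) (hNT : S_NT)
    {T : Fin 3 → E2} (hT : AffineIndependent ℝ T) (hs : ∀ i j, i ≠ j → side T i ≠ side T j) {N : ℕ}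
    (hN : ¬ IsSquare N) (P : Fin N → Fin 3 → E2) (hc : Pool.Agent.Helper549.Tri2.Main.IsCut T N P)
    (hrat : Pool.Agent.Helper549.Tri2.Main.RatAngles P) :
    (∃ i j, angle T i = Real.pi / 6 ∧ angle T j = Real.pi / 3) ∨ RightX (side T) (angle T) := by
  have h2 : 2 ≤ N := by
    by_contra hcon
    have h3 : N = 0 ∨ N = 1 := by omega
    rcases h3 with rfl | rfl
    · exact hN ⟨0, rfl⟩
    · exact hN ⟨1, rfl⟩
  have _ : NeZero N := ⟨by omega⟩
  have hdist : ∀ i, ∃ σ : Equiv.Perm (Fin 3), ∀ k l,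
      dist (P i k) (P i l) = dist (P 0 (σ k)) (P 0 (σ l)) := by
    intro i
    obtain ⟨f, hf⟩ := hc.cong 0 i
    exact Setup.cong_perm (P 0) (P i) (hc.indep 0) (hc.indep i) f hf
  obtain ⟨TC, t, τ, ℓ, θ, ρ, h, hlen, hang, hTC, hθ⟩ :=
    Pool.Agent.Helper549.Tri2.Main.setup2 T P hT hc.indep hdist hc.union hc.disj
  have hlenT : len TC = fun k => side T (ρ k) := by
    funext k
    rw [hTC k, side_perm]
  have hd : ∀ k, dist (TC (k + 2)) (TC (k + 1)) = dist (T (ρ (k + 2))) (T (ρ (k + 1))) := by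
    intro k
    have := hTC k
    unfold len sd at this
    rw [← dist_eq_norm] at this
    rw [this, dist_comm]
  have hangT : ang TC = fun k => angle T (ρ k) := by
    funext k
    rw [← angle_perm' T ρ k]
    unfold ang
    have e1 : ∀ k : Fin 3, k + 2 + 2 = k + 1 ∧ k + 2 + 1 = k ∧ k + 1 + 1 = k + 2 ∧ k + 1 + 2 = k := by decide
    obtain ⟨a1, a2, a3, a4⟩ := e1 k
    have d0 := hd k
    have d1 := hd (k + 1)
    have d2 := hd (k + 2)
    rw [a3, a4] at d1
    rw [a1, a2] at d2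
    refine Setup.angle_of_dist _ _ _ _ _ _ d2 ?_ ?_
    · rw [dist_comm, d1, dist_comm]
    · rw [dist_comm, d0, dist_comm]
  have hD := hDATA0 h2 h τ ℓ θ hlen hang
  rw [hlenT, hangT] at hD
  obtain ⟨n, a, hn, hapos, hasum, haθ⟩ := hRATN θ hD.tpos hD.tsum (by
    intro k
    obtain ⟨q, hq⟩ := hrat 0 k
    exact ⟨q, by rw [hθ k, hq]⟩)
  have hP3 : 3 ≤ (∑ j, cnt t τ (TC j) 0) + (∑ j, cnt t τ (TC j) 1) + (∑ j, cnt t τ (TC j) 2) := by
    have h5 : ∀ j, 1 ≤ cnt t τ (TC j) 0 + cnt t τ (TC j) 1 + cnt t τ (TC j) 2 := by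
      intro j
      obtain ⟨k, hk⟩ := hD.kpos j
      fin_cases k
      · have : 0 < cnt t τ (TC j) 0 := hk
        omega
      · have : 0 < cnt t τ (TC j) 1 := hk
        omega
      · have : 0 < cnt t τ (TC j) 2 := hk
        omega
    simp only [Fin.sum_univ_three]
    have b0 := h5 0
    have b1 := h5 1
    have b2 := h5 2
    omega
  have hout : NTout n a (fun k => ∑ j, cnt t τ (TC j) k) := by
    apply hNT n a _ hn hapos hasum hP3
    intro j hj hsum
    have h6 := hCONJ h (by omega) τ ℓ θ hlen hang n a hn hapos hasum haθ j hj hsum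
    rw [Fin.sum_univ_three] at h6
    exact h6
  have hsc : ∀ i j, i ≠ j → angle T (ρ i) ≠ angle T (ρ j) := by
    intro i j hij he
    apply hs (ρ i) (ρ j) (ρ.injective.ne hij)
    have h1 : side T (ρ i) * Real.sin (angle T (ρ j)) = side T (ρ j) * Real.sin (angle T (ρ i)) :=
      hD.sineT i j
    rw [← he] at h1
    have h2 : 0 < Real.sin (angle T (ρ i)) := by
      apply Real.sin_pos_of_pos_of_lt_pi
      · exact hD.Apos i
      · have h3 : angle T (ρ 0) + angle T (ρ 1) + angle T (ρ 2) = Real.pi := hD.Asum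
        have p0 : 0 < angle T (ρ 0) := hD.Apos 0
        have p1 : 0 < angle T (ρ 1) := hD.Apos 1
        have p2 : 0 < angle T (ρ 2) := hD.Apos 2
        have h4 : ∀ i : Fin 3, i = 0 ∨ i = 1 ∨ i = 2 := by decide
        rcases h4 i with rfl | rfl | rfl <;> linarith
    exact mul_right_cancel₀ h2.ne' h1
  rcases rat_core hRCA hENUM0 hPERM0 hD6 hN hD hsc n a hn haθ hout with ⟨i, j, h7, h8⟩ | h7
  · exact Or.inl ⟨ρ i, ρ j, h7, h8⟩
  · exact Or.inr (RightX.perm ρ h7)

theorem four (i j k l : Fin 3) (hij : i ≠ j) (hjk : j ≠ k) (hik : i ≠ k) : l = i ∨ l = j ∨ l = k := by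
  revert i j k l
  decide

/-- the complete answer -/
theorem answer0 (hRCA : S_RCA) (hENUM0 : S_ENUM0) (hPERM0 : S_PERM0) (hD6 : S_D6) (hDATA0 : S_DATA0)
    (hRATN : S_RATN) (hCONJ : S_CONJ) (hNT : S_NT) (hRX : S_RX) (hFX : S_FX) (hCUT3 : S_CUT3)
    (T : Fin 3 → E2) (hT : AffineIndependent ℝ T) :
    SquareOnly T ↔ (∀ i j, i ≠ j → side T i ≠ side T j) ∧ ¬ RightX (side T) (angle T) ∧ ¬ Fam (side T) ∧
      ¬ ∃ i j, angle T i = Real.pi / 6 ∧ angle T j = Real.pi / 3 := by
  by_cases hirr : ∃ i, ¬ ∃ q : ℚ, angle T i = q * Real.pi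
  · rw [full T hT hirr]
    constructor
    · rintro ⟨a, b, c⟩
      refine ⟨a, b, c, ?_⟩
      rintro ⟨i, j, h1, h2⟩
      obtain ⟨hpos, hsum, -⟩ := tri_facts hT
      have hij : i ≠ j := by
        rintro rfl
        rw [h1] at h2
        have := Real.pi_pos
        linarith
      obtain ⟨k, hik, hjk⟩ := third i j hij
      have h3 : angle T k = Real.pi / 2 := by
        have h01 : ∀ i : Fin 3, i = 0 ∨ i = 1 ∨ i = 2 := by decide
        rcases h01 i with rfl | rfl | rfl <;> rcases h01 j with rfl | rfl | rfl <;>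
          rcases h01 k with rfl | rfl | rfl <;>
          first
          | exact absurd rfl hij
          | exact absurd rfl hjk
          | exact absurd rfl hik
          | (rw [h1, h2] at hsum; linarith)
      obtain ⟨l, hl⟩ := hirr
      apply hl
      have h01 : l = i ∨ l = j ∨ l = k := four i j k l hij hjk hik
      rcases h01 with rfl | rfl | rfl
      · exact ⟨1 / 6, by rw [h1]; push_cast; ring⟩
      · exact ⟨1 / 3, by rw [h2]; push_cast; ring⟩
      · exact ⟨1 / 2, by rw [h3]; push_cast; ring⟩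
    · rintro ⟨a, b, c, -⟩
      exact ⟨a, b, c⟩
  · push Not at hirr
    have hrat : ∀ i, ∃ q : ℚ, angle T i = q * Real.pi := hirr
    constructor
    · intro hsq
      have hs := iso_not j_ISO2 T hT hsq
      refine ⟨hs, hRX T hT hs hrat, hFX T hT hs hrat, ?_⟩
      rintro ⟨i, j, h1, h2⟩
      obtain ⟨r, hr⟩ := hsq 3 (by norm_num) (hCUT3 T hT i j h1 h2)
      have hr1 : r ≤ 1 := by nlinarith
      interval_cases r <;> omega
    · rintro ⟨hs, -, -, h306⟩ N - hcut
      by_contra hN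
      obtain ⟨P, p1, p2, p3, p4⟩ := hcut
      have hc : Pool.Agent.Helper549.Tri2.Main.IsCut T N P := ⟨p1, p2, p3, p4⟩
      by_cases hR : Pool.Agent.Helper549.Tri2.Main.RatAngles P
      · rcases rat_cut hRCA hENUM0 hPERM0 hD6 hDATA0 hRATN hCONJ hNT hT hs hN P hc hR with h1 | h1
        · exact h306 h1
        · exact hRX T hT hs hrat h1
      · obtain ⟨ρ, ℓ, θ, κ, β, P', hD, hCC, hP', hc'⟩ := data_of_cut j_CORNER2 hT hN P hc hR
        have hsc : ∀ i j, i ≠ j → angle T (ρ i) ≠ angle T (ρ j) := by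
          intro i j hij he
          apply hs (ρ i) (ρ j) (ρ.injective.ne hij)
          have h1 : side T (ρ i) * Real.sin (angle T (ρ j)) = side T (ρ j) * Real.sin (angle T (ρ i)) :=
            hD.sineT i j
          rw [← he] at h1
          have h2 : 0 < Real.sin (angle T (ρ i)) := by
            apply Real.sin_pos_of_pos_of_lt_pi
            · exact hD.Apos i
            · have h3 : angle T (ρ 0) + angle T (ρ 1) + angle T (ρ 2) = Real.pi := hD.Asum
              have p0 : 0 < angle T (ρ 0) := hD.Apos 0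
              have p1 : 0 < angle T (ρ 1) := hD.Apos 1
              have p2 : 0 < angle T (ρ 2) := hD.Apos 2
              have h4 : ∀ i : Fin 3, i = 0 ∨ i = 1 ∨ i = 2 := by decide
              rcases h4 i with rfl | rfl | rfl <;> linarith
          exact mul_right_cancel₀ h2.ne' h1
        rcases core2 j_SIMC j_RIGHT j_ENUM j_F1 j_F2 j_F3 (Pool.Agent.Q224.SQ.t_F4 Q16.SQ.t_SH4) j_F5 j_F6
          hN hD hCC hsc P' hP' hc' with h1 | h1
        · exact hRX T hT hs hrat (RightX.perm ρ h1)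
        · exact hFX T hT hs hrat (Fam.perm ρ h1)

end Q16.SQ
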