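import Mathlib
import Pool.Agent.Q16.SQ.Final4
import Pool.Agent.Q16.SQ.Stm5
import Pool.Agent.Q103.SQ_WIND
import Pool.Agent.Q121.SQ_D6
import Pool.Agent.Q154.SQ_RX
import Pool.Agent.Q158.SQ_ENUM0
import Pool.Agent.Q160.SQ_RCA
import Pool.Agent.Q222.SQ_RATN
import Pool.Agent.Q223.SQ_DDT
import Pool.Agent.Q278.SQ_FX
import Pool.Agent.Q18.SQ_NORM
import Pool.Agent.Q208.SQ_SUMW
import Pool.Agent.Q65.SQ_CONJ
import Pool.Agent.Q278.SQ_NTA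
import Pool.Agent.Q65.SQ_DATA0
import Pool.Agent.Q259.SQ_CUT3
import Pool.Agent.Q25.SQ_SEMI
import Pool.Agent.Q123.SQ_LINEH
import Pool.Agent.Q123.SQ_LINESUM
import Pool.Agent.Q144.SQ_TOPD
import Pool.Agent.Q178.SQ_IMG
import Pool.Agent.Q252.SQ_NT
import Pool.Agent.Q16.SQ.Perm0
set_option autoImplicit false
noncomputable section
open Pool.Agent.Helper549.Tri

namespace Q16.SQ

theorem j_RX : S_RX := Q16.SQ.t_RX
theorem j_FX : S_FX := Q278.SQFX.t_FX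
theorem j_WIND : S_WIND := Pool.Agent.Q103.SQ.t_WIND
theorem j_NORM : S_NORM := Pool.Agent.Q18.SQN.t_NORM
theorem j_NTA : S_NTA := Q278.SQNTA.t_NTA
theorem j_DATA0 : S_DATA0 := Q65.SQ0.t_DATA0
theorem j_RCA : S_RCA := Pool.Agent.Q160.SQR.t_RCA j_MATJ
theorem j_ENUM0 : S_ENUM0 := Q158.SQE0.t_ENUM0
theorem j_CUT3 : S_CUT3 := Pool.Agent.Q259.SQ.t_CUT3 j_ISOM j_SPLIT
theorem j_RATN : S_RATN := Q222.SQ.t_RATN
theorem j_D6 : S_D6 := Pool.Agent.Q121.SQ_D6.t_D6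
theorem j_SEMI : S_SEMI := Q16.SQ.t_SEMI
theorem j_LINEH : S_LINEH := Q16.SQ.t_LINEH
theorem j_LINESUM : S_LINESUM := Q16.SQ.t_LINESUM j_LINEH
theorem j_TOPD : S_TOPD := Pool.Agent.Q144.SQTOPD.t_TOPD
theorem j_IMG : S_IMG := Q178.SQIMG.t_IMG
theorem j_DDT : S_DDT := Pool.Agent.Q223.SQDDT.t_DDT j_LINESUM j_IMG
theorem j_SUMW : S_SUMW := Pool.Agent.Q208.SQ_SUMW.t_SUMW j_LINESUM j_WIND j_IMG j_DDT
theorem j_CONJ : S_CONJ := Q65.SQC.t_CONJ j_NORM j_SEMI j_IMG j_DDT j_SUMW j_TOPD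

theorem j_NT : S_NT := Pool.Agent.Q252.SQNT.t_NT j_NTA

/-- the complete answer -/
theorem answer (T : Fin 3 → E2) (hT : AffineIndependent ℝ T) :
    SquareOnly T ↔ (∀ i j, i ≠ j → side T i ≠ side T j) ∧ ¬ RightX (side T) (angle T) ∧ ¬ Fam (side T) ∧
      ¬ ∃ i j, angle T i = Real.pi / 6 ∧ angle T j = Real.pi / 3 :=
  answer0 j_RCA j_ENUM0 j_PERM0 j_D6 j_DATA0 j_RATN j_CONJ j_NT j_RX j_FX j_CUT3 T hT

end Q16.SQ
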